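import Pool.Agent.Q269.SL.Prb

/-!
# The mean of the law
-/

set_option autoImplicit false
set_option linter.all false

namespace Pool.Agent.Q269.AV

open Finset Filter Topology
open Pool.Agent.Q269.MF
open Pool.Agent.Q269.SL
open scoped Classical

/-- the weights -/
noncomputable def bb (e : ℕ) : ℝ := 2 ^ e * ce e

theorem bb_pos (e : ℕ) : 0 < bb e := by
  have := ce_pos e
  rw [bb]
  positivity

theorem bb_succ (e : ℕ) : bb (e + 1) * (2 ^ (e + 1) - 1) = 2 * bb e := by
  rw [bb, bb, mul_assoc, ce_succ, pow_succ]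
  ring

theorem bb_zero : bb 0 = 1 := by rw [bb, ce_zero]; norm_num
theorem bb_one : bb 1 = 2 := by
  have := bb_succ 0
  rw [bb_zero] at this
  norm_num at this
  linarith
theorem bb_two : bb 2 = 4 / 3 := by
  have := bb_succ 1
  rw [bb_one] at this
  norm_num at this
  linarith
theorem bb_three : bb 3 = 8 / 21 := by
  have := bb_succ 2
  rw [bb_two] at this
  norm_num at this
  linarith
theorem bb_four : bb 4 = 16 / 315 := by
  have := bb_succ 3
  rw [bb_three] at this
  norm_num at this
  linarith
theorem bb_five : bb 5 = 32 / 9765 := by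
  have := bb_succ 4
  rw [bb_four] at this
  norm_num at this
  linarith
theorem bb_six : bb 6 = 64 / 615195 := by
  have := bb_succ 5
  rw [bb_five] at this
  norm_num at this
  linarith

theorem law2_bb (e : ℕ) : law2 e = bet / 2 * bb e := by
  rw [law2, lam2_eq, bb]
  ring

theorem bet_half_le : 0 ≤ bet / 2 ∧ bet / 2 * (46563 / 9765) ≤ 1 := by
  constructor
  · have h := law2_nonneg 0
    rw [law2_bb, bb_zero, mul_one] at h
    exact h
  · have h := sum_le_hasSum (range 6) (fun e _ => law2_nonneg e) hasSum_law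
    rw [sum_congr rfl (fun e _ => law2_bb e), ← mul_sum] at h
    simp only [sum_range_succ, range_zero, sum_empty, bb_zero, bb_one, bb_two, bb_three, bb_four,
      bb_five] at h
    norm_num at h ⊢
    linarith

theorem sum_eb (n : ℕ) : ∑ e ∈ range n, (e : ℝ) * bb e ≤ 603034 / 100000 := by
  have key : ∀ n : ℕ, 6 ≤ n → ∑ e ∈ range n, (e : ℝ) * bb e + 2 * n * bb n ≤ 603034 / 100000 := by
    intro n hn
    induction n, hn using Nat.le_induction with
    | base =>
      simp only [sum_range_succ, range_zero, sum_empty, bb_zero, bb_one, bb_two, bb_three, bb_four,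
        bb_five, bb_six]
      norm_num
    | succ n hn ih =>
      rw [sum_range_succ]
      have h1 := bb_succ n
      have h2 := bb_pos n
      have h3 := bb_pos (n + 1)
      have hn6 : (6 : ℝ) ≤ n := by exact_mod_cast hn
      have h4 : (2 : ℝ) ^ (n + 1) - 1 ≥ 4 := by
        have : (2 : ℝ) ^ 7 ≤ 2 ^ (n + 1) := pow_le_pow_right₀ (by norm_num) (by omega)
        norm_num at this
        linarith
      have h5 : 4 * bb (n + 1) ≤ 2 * bb n := by
        rw [← h1, mul_comm]
        exact mul_le_mul_of_nonneg_left h4 h3.le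
      have h6 : (2 : ℝ) ^ (n + 1) - 1 ≥ 8 := by
        have : (2 : ℝ) ^ 7 ≤ 2 ^ (n + 1) := pow_le_pow_right₀ (by norm_num) (by omega)
        norm_num at this
        linarith
      have h7 : 8 * bb (n + 1) ≤ 2 * bb n := by
        rw [← h1, mul_comm]
        exact mul_le_mul_of_nonneg_left h6 h3.le
      push_cast
      have h8 : 2 * ((n : ℝ) + 1) * bb (n + 1) ≤ (n : ℝ) * bb n := by
        have h9 : 2 * ((n : ℝ) + 1) ≤ 4 * n := by linarith
        have h10 := mul_le_mul_of_nonneg_right h9 h3.le
        have h11 : (n : ℝ) * (4 * bb (n + 1)) ≤ n * bb n := by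
          apply mul_le_mul_of_nonneg_left _ (by linarith)
          linarith
        linarith
      linarith
  by_cases h : 6 ≤ n
  · have h1 := key n h
    have h2 : 0 ≤ 2 * (n : ℝ) * bb n := by
      have := bb_pos n
      positivity
    linarith
  · have h1 : ∑ e ∈ range n, (e : ℝ) * bb e ≤ ∑ e ∈ range 6, (e : ℝ) * bb e := by
      apply sum_le_sum_of_subset_of_nonneg
      · exact range_mono (by omega)
      · intro e _ _
        have := bb_pos e
        positivity
    have h2 := key 6 le_rfl
    have h3 := bb_pos 6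
    push_cast at h2
    linarith

theorem sum_elaw (n : ℕ) : ∑ e ∈ range n, (e : ℝ) * law2 e ≤ 253 / 200 := by
  have h1 : ∑ e ∈ range n, (e : ℝ) * law2 e = bet / 2 * ∑ e ∈ range n, (e : ℝ) * bb e := by
    rw [mul_sum]
    refine sum_congr rfl fun e _ => ?_
    rw [law2_bb]
    ring
  rw [h1]
  obtain ⟨h2, h3⟩ := bet_half_le
  have h4 := mul_le_mul_of_nonneg_left (sum_eb n) h2
  have h5 : bet / 2 * (603034 / 100000) ≤ 253 / 200 := by
    have h6 : bet / 2 * (603034 / 100000) = (bet / 2 * (46563 / 9765)) *
      ((603034 / 100000) * (9765 / 46563)) := by ring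
    rw [h6]
    have h7 : (603034 / 100000 : ℝ) * (9765 / 46563) ≤ 253 / 200 := by norm_num
    have h8 : (0 : ℝ) ≤ (603034 / 100000 : ℝ) * (9765 / 46563) := by norm_num
    nlinarith
  linarith

theorem summable_elaw : Summable fun e : ℕ => (e : ℝ) * law2 e :=
  summable_of_sum_range_le (c := 253 / 200)
    (fun e => mul_nonneg (Nat.cast_nonneg _) (law2_nonneg e)) sum_elaw

/-- the mean of the law -/
noncomputable def rho : ℝ := ∑' e : ℕ, (e : ℝ) * law2 e

theorem rho_le : rho ≤ 253 / 200 :=
  Real.tsum_le_of_sum_range_le (fun e => mul_nonneg (Nat.cast_nonneg _) (law2_nonneg e)) sum_elaw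

theorem tails (T : ℕ) : ∑ t ∈ range T, (1 - ∑ i ∈ range (t + 1), law2 i) ≤ rho := by
  have h1 : Tendsto (fun M : ℕ => ∑ t ∈ range T, (∑ i ∈ range M, law2 i -
      ∑ i ∈ range (t + 1), law2 i)) atTop (𝓝 (∑ t ∈ range T, (1 - ∑ i ∈ range (t + 1), law2 i))) := by
    apply tendsto_finsetSum
    intro t _
    exact hasSum_law.tendsto_sum_nat.sub_const _
  refine le_of_tendsto h1 ?_
  filter_upwards [eventually_ge_atTop T] with M hM
  have h2 : ∑ t ∈ range T, (∑ i ∈ range M, law2 i - ∑ i ∈ range (t + 1), law2 i) =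
      ∑ t ∈ range T, ∑ i ∈ range M, (if t < i then law2 i else 0) := by
    refine sum_congr rfl fun t ht => ?_
    rw [mem_range] at ht
    rw [← sum_filter, sub_eq_iff_eq_add]
    have h3 := sum_filter_add_sum_filter_not (range M) (fun i => t < i) law2
    have h4 : (range M).filter (fun i => ¬ t < i) = range (t + 1) := by
      ext i
      rw [mem_filter, mem_range, mem_range]
      omega
    rw [h4] at h3
    exact h3.symm
  rw [h2, sum_comm]
  have h3 : ∀ i ∈ range M, ∑ t ∈ range T, (if t < i then law2 i else 0) ≤ (i : ℝ) * law2 i := by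
    intro i _
    rw [← sum_filter, sum_const, nsmul_eq_mul]
    apply mul_le_mul_of_nonneg_right _ (law2_nonneg i)
    have h4 : ((range T).filter (fun t => t < i)).card ≤ i := by
      have h5 : (range T).filter (fun t => t < i) ⊆ range i := by
        intro t ht
        rw [mem_filter] at ht
        exact mem_range.2 ht.2
      have := card_le_card h5
      rwa [card_range] at this
    exact_mod_cast h4
  refine (sum_le_sum h3).trans ?_
  exact summable_elaw.sum_le_tsum _ fun e _ => mul_nonneg (Nat.cast_nonneg _) (law2_nonneg e)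

theorem logb_le (T : ℕ) : ∀ S : ℕ, Real.logb 2 S ≤
    ∑ t ∈ range T, (if 2 ^ t < S then (1 : ℝ) else 0) + (S : ℝ) ^ 2 / 2 ^ T := by
  have key : ∀ T S : ℕ, S ≤ 2 ^ T → Real.logb 2 S ≤ ∑ t ∈ range T, (if 2 ^ t < S then (1 : ℝ) else 0) := by
    intro T
    induction T with
    | zero =>
      intro S hS
      rw [pow_zero] at hS
      rw [range_zero, sum_empty]
      apply Real.logb_nonpos (by norm_num) (Nat.cast_nonneg _)
      exact_mod_cast hS
    | succ T ih =>
      intro S hS
      rw [sum_range_succ]
      by_cases h : 2 ^ T < S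
      · have h1 : ∀ t ∈ range T, (if 2 ^ t < S then (1 : ℝ) else 0) = 1 := by
          intro t ht
          rw [mem_range] at ht
          exact if_pos (lt_of_le_of_lt (Nat.pow_le_pow_right (by norm_num) ht.le) h)
        rw [if_pos h, sum_congr rfl h1, sum_const, card_range, nsmul_eq_mul, mul_one]
        have hS0 : (0 : ℝ) < S := by
          have : 0 < S := lt_of_le_of_lt (Nat.zero_le _) h
          exact_mod_cast this
        have h2 : Real.logb 2 S ≤ Real.logb 2 (2 ^ (T + 1)) := by
          apply Real.logb_le_logb_of_le (by norm_num) hS0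
          exact_mod_cast hS
        rw [Real.logb_pow, Real.logb_self_eq_one (by norm_num), mul_one] at h2
        push_cast at h2
        exact h2
      · rw [if_neg h, add_zero]
        exact ih S (not_lt.1 h)
  intro S
  have h0 : (0 : ℝ) ≤ (S : ℝ) ^ 2 / 2 ^ T := by positivity
  by_cases h : S ≤ 2 ^ T
  · have := key T S h
    linarith
  · rw [not_le] at h
    have h1 : (0 : ℝ) ≤ ∑ t ∈ range T, (if 2 ^ t < S then (1 : ℝ) else 0) :=
      sum_nonneg fun t _ => by split_ifs <;> norm_num
    have hS0 : (0 : ℝ) < S := by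
      have : 0 < S := lt_of_le_of_lt (Nat.zero_le _) h
      exact_mod_cast this
    have h2 : Real.logb 2 S ≤ S := by
      rw [Real.logb_le_iff_le_rpow (by norm_num) hS0, Real.rpow_natCast]
      exact_mod_cast (Nat.lt_two_pow_self (n := S)).le
    have h3 : (S : ℝ) ≤ (S : ℝ) ^ 2 / 2 ^ T := by
      rw [le_div_iff₀ (by positivity), sq]
      apply mul_le_mul_of_nonneg_left _ hS0.le
      exact_mod_cast h.le
    linarith

end Pool.Agent.Q269.AV
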