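import Pool.Agent.Q269.AV.Mw
import Pool.Agent.Q269.SL.Prb

/-!
# The moments for several families of hyperelliptic curves
-/

set_option autoImplicit false
set_option linter.all false

namespace Pool.Agent.Q269.AV

open Finset Polynomial Filter Topology IsDedekindDomain
open Pool.Agent.Q269.MF
open Pool.Agent.Q269.SL
open Pool.Agent.Y164.SZ (L AT BT ok SYM0 SYM FDat Triv kLI AS nb KerP)
open Pool.Agent.Y164.HG (Geo Tau QQ EW cur F2 kc)
open Pool.Agent.Y164.PS (Sf mem_Sf Fam)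
open Pool.Agent.Y261.SZ (nb_lower)
open scoped Classical

/-- the smallest bound -/
noncomputable def sz {K : Type} [Field K] (F : K[X]) (R : Type) [CommRing R] [IsDedekindDomain R]
    [Algebra R K] [IsFractionRing R K] : ℕ := sInf {M | BoundedBy F R M}

theorem sz_le {K : Type} [Field K] {F : K[X]} {R : Type} [CommRing R] [IsDedekindDomain R]
    [Algebra R K] [IsFractionRing R K] {M : ℕ} (h : BoundedBy F R M) : sz F R ≤ M := Nat.sInf_le h

theorem sz_bd {K : Type} [Field K] {F : K[X]} {R : Type} [CommRing R] [IsDedekindDomain R]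
    [Algebra R K] [IsFractionRing R K] {M : ℕ} (h : BoundedBy F R M) : BoundedBy F R (sz F R) :=
  Nat.sInf_mem (s := {M | BoundedBy F R M}) ⟨M, h⟩

theorem card_KerP_le {ℓ : ℕ} [hp : Fact ℓ.Prime] {W τ ι : Type} [AddCommGroup W] [Module (ZMod ℓ) W]
    [Fintype W] [Fintype τ] [Fintype ι] (D : FDat ℓ W τ) (A : ι → ι → ZMod ℓ) (B : ι → τ → ZMod ℓ)
    (d : ι → ZMod ℓ) : (Nat.card (KerP D A B d) : ℝ) ≤
      (ℓ : ℝ) ^ Fintype.card τ * (Fintype.card W : ℝ) ^ Fintype.card ι := by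
  have h1 : Nat.card (KerP D A B d) ≤ Nat.card (Pool.Agent.Y164.SZ.V ℓ W ι τ) :=
    Nat.card_le_card_of_injective (fun x => (x : Pool.Agent.Y164.SZ.V ℓ W ι τ))
      Subtype.val_injective
  have h2 : Nat.card (Pool.Agent.Y164.SZ.V ℓ W ι τ) =
      Fintype.card W ^ Fintype.card ι * ℓ ^ Fintype.card τ := by
    have h3 : Nat.card (Pool.Agent.Y164.SZ.V ℓ W ι τ) = Nat.card ((ι → W) × (τ → ZMod ℓ)) := rfl
    rw [h3, Nat.card_prod, Nat.card_eq_fintype_card, Nat.card_eq_fintype_card, Fintype.card_fun,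
      Fintype.card_fun, ZMod.card]
  rw [h2] at h1
  have h4 : (Nat.card (KerP D A B d) : ℝ) ≤
      ((Fintype.card W ^ Fintype.card ι * ℓ ^ Fintype.card τ : ℕ) : ℝ) := by exact_mod_cast h1
  refine h4.trans (le_of_eq ?_)
  push_cast
  ring

section two
variable {k : Type} [Field k] [Fintype k] [DecidableEq k]
variable {R : Type} [Fintype R] [DecidableEq R] {n : R → ℕ} [∀ r, Fact (Odd (n r))]
  {a : (r : R) → Fin (n r) → k[X]} {N : R → ℕ} (H : ∀ r, Geo (a r) (N r))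

/-- a product of powers of the smallest bounds -/
noncomputable def GG {k : Type} [Field k] (K : Type) [Field K] [Algebra k[X] K]
    [IsFractionRing k[X] K] {R : Type} [Fintype R] {n : R → ℕ} (a : (r : R) → Fin (n r) → k[X])
    (e : R → ℕ) (E : k[X]) : ℝ :=
  ∏ r, (sz (cur K (a r) E) k[X] : ℝ) ^ e r

theorem imp_b (hchar : ringChar k ≠ 2) (K : Type) [Field K] [Algebra k[X] K]
    [IsFractionRing k[X] K] (σ : (Σ r, Tau (a r)) → ZMod 2) (ι : Type) [Fintype ι] (T : ι → k[X])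
    (hR : Fam (Sum.elim T (Q2 a))) (hcl : cla σ (gM (datT H 0)) (Q2 a) T)
    (hU : ∀ r, IsUnit (∑ i, ((T i).natDegree : ZMod 2) + (N r : ZMod 2))) (r : R) :
    BoundedBy (cur K (a r) (∏ i, T i)) k[X]
      (Nat.card (KerP (datT H σ r) (AT 2 T) (BT 2 (Qr (Q2 a) r) T)
        (fun i => ((T i).natDegree : ZMod 2)))) := by
  have h4 : (AT 2 T) = Pool.Agent.Y164.HG.AT T := by
    funext i j
    exact L_eq hchar _ _
  have h5 : BT 2 (Qr (Q2 a) r) T = Pool.Agent.Y164.HG.BT (QQ (a r)) T := by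
    funext i s
    exact L_eq hchar _ _
  have h2 : Nat.card (KerP (datT H σ r) (AT 2 T) (BT 2 (Qr (Q2 a) r) T)
      (fun i => ((T i).natDegree : ZMod 2))) =
      kc ((H r).dat fun s => σ ⟨r, s⟩) (AT 2 T) (BT 2 (Qr (Q2 a) r) T)
      (fun i => ((T i).natDegree : ZMod 2)) := ker_kc _ _ _ _
  rw [h2, h4, h5]
  refine imp_bound (H r) (fun s => σ ⟨r, s⟩) ι T (Fam_res hR r) (fun s => ?_) (isUnit_two (hU r))
  have h3 := hcl ⟨r, s⟩
  have h6 : ∀ i, BT 2 (Q2 a) T i ⟨r, s⟩ = Pool.Agent.Y164.HG.BT (QQ (a r)) T i s :=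
    fun i => L_eq hchar _ _
  simp only [h6] at h3
  exact h3

theorem imp_w (hchar : ringChar k ≠ 2) (K : Type) [Field K] [Algebra k[X] K]
    [IsFractionRing k[X] K] (e : R → ℕ)
    (σ : (Σ r, Tau (a r)) → ZMod 2) : ImpW (Q2 a) σ (gM (datT H 0))
      (fun x => ∀ r, IsUnit (x + (N r : ZMod 2)))
      (FW (datT H σ) (Q2 a) e) (GG K a e) := by
  intro ι _ T hR hcl hU
  rw [GG, FW]
  apply Finset.prod_le_prod
  · intro r _
    positivity
  · intro r _
    apply pow_le_pow_left₀ (by positivity)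
    exact_mod_cast sz_le (imp_b H hchar K σ ι T hR hcl hU r)

theorem FW_le (D : (r : R) → FDat 2 (EW (n r)) (Tau (a r))) (e : R → ℕ) (ι : Type) [Fintype ι]
    (d : ι → ZMod 2) (T : ι → k[X]) :
    FW D (Q2 a) e ι d T ≤ (∏ r, ((2 : ℝ) ^ Fintype.card (Tau (a r))) ^ e r) *
      ((∏ r, Fintype.card (EW (n r)) ^ e r : ℕ) : ℝ) ^ Fintype.card ι := by
  have h1 : FW D (Q2 a) e ι d T ≤ ∏ r, ((2 : ℝ) ^ Fintype.card (Tau (a r)) *
      (Fintype.card (EW (n r)) : ℝ) ^ Fintype.card ι) ^ e r := by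
    rw [FW]
    apply Finset.prod_le_prod
    · intro r _
      positivity
    · intro r _
      apply pow_le_pow_left₀ (by positivity)
      exact_mod_cast card_KerP_le (D r) _ _ _
  refine h1.trans (le_of_eq ?_)
  push_cast
  rw [← Finset.prod_pow, ← prod_mul_distrib]
  refine prod_congr rfl fun r _ => ?_
  rw [mul_pow, ← pow_mul, ← pow_mul, ← pow_mul, mul_comm (Fintype.card ι)]

end two

/-- the moments for the prime two -/
theorem final_mom {k : Type} [Field k] [Finite k]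
    (h2 : (2 : k) ≠ 0) (hi : IsSquare (-1 : k))
    (K : Type) [Field K] [Algebra k[X] K] [IsFractionRing k[X] K] {R : Type} [Fintype R]
    {n : R → ℕ} (hn : ∀ r, Odd (n r)) (hn3 : ∀ r, 3 ≤ n r) (N : R → ℕ) (hN : ∀ r, 1 ≤ N r)
    (a : (r : R) → Fin (n r) → k[X])
    (hdeg : ∀ r i j, i ≠ j → (a r i - a r j).natDegree = N r)
    (hsq : ∀ r, Squarefree (Pool.Agent.Y164.HG.Del (a r)))
    (hcop : ∀ r r', r ≠ r' → IsCoprime (Pool.Agent.Y164.HG.Del (a r))
      (Pool.Agent.Y164.HG.Del (a r'))) :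
    (∀ m : ℕ, (∀ r, Odd (m + N r)) → ∀ E ∈ twm a m, ∀ r,
      BoundedBy (cur K (a r) E) k[X] (sz (cur K (a r) E) k[X])) ∧
    ∀ e : R → ℕ, ∀ ε : ℝ, 0 < ε → ∀ᶠ m : ℕ in atTop, (∀ r, Odd (m + N r)) →
      ∑ᶠ E ∈ twm a m, GG K a e E ≤
        (∏ r, ∏ i ∈ range (e r), (1 + (2 : ℝ) ^ (i + 1)) + ε) * ((twm a m).ncard : ℝ) := by
  haveI : ∀ r, Fact (Odd (n r)) := fun r => ⟨hn r⟩
  letI : Fintype k := Fintype.ofFinite k
  have hchar : ringChar k ≠ 2 := by
    intro h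
    apply h2
    have := ringChar.Nat.cast_ringChar (R := k)
    rw [h] at this
    exact_mod_cast this
  have hcard : Nat.card k = Fintype.card k := Nat.card_eq_fintype_card
  have hq := Pool.Agent.Y164.HG.four_le h2 hi
  have S' : SYM 2 k := sym hchar hi
  have H : ∀ r, Geo (a r) (N r) := fun r =>
    ⟨hchar, hi, hn r, hn3 r, hN r, hdeg r, hsq r⟩
  have hF : Fam (Q2 a) := Q2_fam H hcop
  have e0 : ∀ m, twm a m = (((Sf k m).filter (nb (Q2 a)) : Finset k[X]) : Set k[X]) := by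
    intro m
    ext E
    rw [Finset.mem_coe, mem_filter, mem_Sf]
    show (_ ∧ _ ∧ _ ∧ _) ↔ _
    constructor
    · rintro ⟨a1, a2, a3, a4⟩
      exact ⟨⟨a1, a2, a3⟩, (nb2_iff H a1).2 a4⟩
    · rintro ⟨⟨a1, a2, a3⟩, a4⟩
      exact ⟨a1, a2, a3, (nb2_iff H a1).1 a4⟩
  have e1 : ∀ m, (twm a m).ncard = ((Sf k m).filter (nb (Q2 a))).card := by
    intro m
    rw [e0, Set.ncard_coe_finset]
  have hunit : ∀ m : ℕ, (∀ r, Odd (m + N r)) → ∀ r, IsUnit ((m : ZMod 2) + (N r : ZMod 2)) := by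
    intro m ho r
    have h4 : ((m + N r : ℕ) : ZMod 2) = 1 := (ZMod.natCast_eq_one_iff_odd).2 (ho r)
    have h5 : (m : ZMod 2) + (N r : ZMod 2) = 1 := by
      rw [← h4]
      push_cast
      rfl
    rw [h5]
    exact isUnit_one
  constructor
  · intro m ho E hE r
    rw [e0, Finset.mem_coe, mem_filter] at hE
    obtain ⟨h1, h2', h3⟩ := enum hF hE.1 hE.2
    obtain ⟨σ, hσ⟩ : ∃ σ : (Σ r, Tau (a r)) → ZMod 2,
      σ = fun s => -(L 2 E (Q2 a s) + gM (datT H 0) s) := ⟨_, rfl⟩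
    have h4 : gcla σ (gM (datT H 0)) (Q2 a) E := by
      intro s
      rw [hσ]
      ring
    have h5 : cla σ (gM (datT H 0)) (Q2 a)
        (fun i : {P // P ∈ Pool.Agent.Y164.PS.pf E} => i.1) := by
      rw [cla_iff' S' hF h3 (by rw [h2']; exact hE.2), h2']
      exact h4
    have h6 : ∑ i : {P // P ∈ Pool.Agent.Y164.PS.pf E}, ((i.1.natDegree : ℕ) : ZMod 2) =
        (m : ZMod 2) := by
      rw [← (Pool.Agent.Y164.PS.mem_Tp.1 h3).2]
      push_cast
      rfl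
    have h7 := imp_b H hchar K σ {P // P ∈ Pool.Agent.Y164.PS.pf E} (fun i => i.1) h1 h5
      (fun r => by rw [h6]; exact hunit m ho r) r
    rw [h2'] at h7
    exact sz_bd h7
  intro e ε hε
  haveI hne : ∀ r, Nonempty (Tau (a r)) := fun r => ((H r).conn (fun _ => 0)).nonempty
  have hmo : ∏ r, mo 2 (e r) = ∏ r, ∏ i ∈ range (e r), (1 + (2 : ℝ) ^ (i + 1)) := by
    refine prod_congr rfl fun r _ => ?_
    rw [mo]
    refine prod_congr rfl fun i _ => ?_
    rw [ka, if_pos rfl]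
    push_cast
    ring
  have hcell : ∀ σ : (Σ r, Tau (a r)) → ZMod 2, ∀ δ : ℝ, 0 < δ →
      CellW (Q2 a) σ (gM (datT H 0)) (fun x => ∀ r, IsUnit (x + (N r : ZMod 2)))
        (FW (datT H σ) (Q2 a) e) (∏ r, mo 2 (e r) + δ) := by
    intro σ δ hδ
    have h3 := cell_w (datT H σ) (Q := Q2 a) (fun r =>
        card_ge_two (tF_CN ((H r).conn (fun s => σ ⟨r, s⟩)))) (fun r => 
          tF_CN ((H r).conn (fun s => σ ⟨r, s⟩)))
      (fun hS0 ι _ d _ r T w hw => by
        apply tF_diag _ _ _ _ _ hw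
        intro i j
        exact hS0.L_comm _ _) e hδ
    rw [datT_sp, datT_g] at h3
    simp only [datT_N] at h3
    exact h3
  have hw1 : 1 ≤ ∏ r, Fintype.card (EW (n r)) ^ e r := by
    apply Nat.one_le_iff_ne_zero.2
    apply Finset.prod_ne_zero_iff.2
    intro r _
    have h3 := card_ge_two (tF_CN ((H r).conn (fun _ => 0)))
    exact pow_ne_zero _ (by omega)
  have hmain := main_w S' hF hchar hq (U := fun x => ∀ r, IsUnit (x + (N r : ZMod 2)))
    (G := GG K a e) (FF := fun σ => FW (datT H σ) (Q2 a) e) (fun σ => imp_w H hchar K e σ)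
    (C0 := ∏ r, ((2 : ℝ) ^ Fintype.card (Tau (a r))) ^ e r) (by positivity)
    (w0 := ∏ r, Fintype.card (EW (n r)) ^ e r) hw1
    (fun σ ι _ d T => FW_le (datT H σ) e ι d T)
    (prod_nonneg fun r _ => (mo_pos 2 (e r)).le) hcell ε hε
  filter_upwards [hmain] with m hm ho
  have h4 := hm (hunit m ho)
  rw [hmo] at h4
  rw [e1, e0, finsum_mem_coe_finset]
  exact h4

end Pool.Agent.Q269.AV
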