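import Pool.Agent.Q269.AV.A2
import Pool.Agent.Q269.AV.A3

/-!
# The mean of the logarithm
-/

set_option autoImplicit false
set_option linter.all false

namespace Pool.Agent.Q269.AV

open Finset Polynomial Filter Topology IsDedekindDomain
open Pool.Agent.Q269.MF
open Pool.Agent.Q269.SL
open Pool.Agent.Y164.HG (cur)
open scoped Classical

theorem marg {R : Type} [Fintype R] (r0 : R) (t : ℕ) {ε : ℝ} (hε : 0 < ε) :
    ∃ 𝒮 : Finset (R → ℕ), (∀ e ∈ 𝒮, e r0 ≤ t) ∧
      ∑ i ∈ range (t + 1), law2 i - ε ≤ ∑ e ∈ 𝒮, ∏ r, law2 (e r) := by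
  have h1 : Tendsto (fun M : ℕ => ∏ r : R, ∑ j ∈ (if r = r0 then range (t + 1) else range M), law2 j)
      atTop (𝓝 (∏ r : R, (if r = r0 then ∑ i ∈ range (t + 1), law2 i else 1))) := by
    apply tendsto_finsetProd
    intro r _
    by_cases h : r = r0
    · simp only [if_pos h]
      exact tendsto_const_nhds
    · simp only [if_neg h]
      exact hasSum_law.tendsto_sum_nat
  rw [prod_ite_eq' univ r0, if_pos (mem_univ r0)] at h1
  obtain ⟨M, hM⟩ := (h1.eventually_const_le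
    (show ∑ i ∈ range (t + 1), law2 i - ε < ∑ i ∈ range (t + 1), law2 i by linarith)).exists
  refine ⟨Fintype.piFinset (fun r => if r = r0 then range (t + 1) else range M), ?_, ?_⟩
  · intro e he
    have h2 := Fintype.mem_piFinset.1 he r0
    rw [if_pos rfl, mem_range] at h2
    omega
  · rw [← prod_univ_sum]
    exact hM

theorem twm_finset {k : Type} [Field k] [Finite k] {R : Type} {n : R → ℕ}
    (a : (r : R) → Fin (n r) → k[X]) (m : ℕ) : ∃ B : Finset k[X], twm a m = (B : Set k[X]) := by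
  have h6 : (twm a m).Finite := by
    letI : Fintype k := Fintype.ofFinite k
    apply Set.Finite.subset (Finset.finite_toSet (Pool.Agent.Y164.PS.Sf k m))
    rintro E ⟨a1, a2, a3, -⟩
    exact Pool.Agent.Y164.PS.mem_Sf.2 ⟨a1, a2, a3⟩
  exact ⟨h6.toFinset, h6.coe_toFinset.symm⟩

/-- the mean of the logarithm -/
theorem final_log {k : Type} [Field k] [Finite k]
    (h2 : (2 : k) ≠ 0) (hi : IsSquare (-1 : k))
    (K : Type) [Field K] [Algebra k[X] K] [IsFractionRing k[X] K] {R : Type} [Fintype R]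
    {n : R → ℕ} (hn : ∀ r, Odd (n r)) (hn3 : ∀ r, 3 ≤ n r) (N : R → ℕ) (hN : ∀ r, 1 ≤ N r)
    (a : (r : R) → Fin (n r) → k[X])
    (hdeg : ∀ r i j, i ≠ j → (a r i - a r j).natDegree = N r)
    (hsq : ∀ r, Squarefree (Pool.Agent.Y164.HG.Del (a r)))
    (hcop : ∀ r r', r ≠ r' → IsCoprime (Pool.Agent.Y164.HG.Del (a r))
      (Pool.Agent.Y164.HG.Del (a r'))) (r0 : R) (ε : ℝ) (hε : 0 < ε) :
    ∀ᶠ m : ℕ in atTop, (∀ r, Odd (m + N r)) →
      ∑ᶠ E ∈ twm a m, Real.logb 2 (sz (cur K (a r0) E) k[X]) ≤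
        (rho + ε) * ((twm a m).ncard : ℝ) := by
  obtain ⟨T, hT⟩ : ∃ T : ℕ, 32 * (1 / 2 : ℝ) ^ T ≤ ε := by
    have h1 : Tendsto (fun T : ℕ => 32 * (1 / 2 : ℝ) ^ T) atTop (𝓝 (32 * 0)) :=
      (tendsto_pow_atTop_nhds_zero_of_lt_one (by norm_num) (by norm_num)).const_mul 32
    rw [mul_zero] at h1
    exact (h1.eventually_le_const hε).exists
  obtain ⟨δ, hδ⟩ : ∃ δ : ℝ, δ = ε / (4 * (T + 1)) := ⟨_, rfl⟩
  have hδ0 : 0 < δ := by rw [hδ]; positivity
  obtain ⟨-, hlaw⟩ := final_x h2 hi K hn hn3 N hN a hdeg hsq hcop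
  obtain ⟨-, hmom⟩ := final_mom h2 hi K hn hn3 N hN a hdeg hsq hcop
  have h1 : ∀ᶠ m : ℕ in atTop, ∀ t ∈ range T, (∀ r, Odd (m + N r)) →
      (∑ i ∈ range (t + 1), law2 i - 2 * δ) * ((twm a m).ncard : ℝ) ≤
        (({E ∈ twm a m | sz (cur K (a r0) E) k[X] ≤ 2 ^ t}).ncard : ℝ) := by
    rw [Filter.eventually_all_finset]
    intro t _
    obtain ⟨S, hS, hS2⟩ := marg r0 t hδ0
    filter_upwards [hlaw S δ hδ0] with m hm ho
    have h4 := hm ho
    have h5 : (({E ∈ twm a m | GoodX K a S E}).ncard : ℝ) ≤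
        (({E ∈ twm a m | sz (cur K (a r0) E) k[X] ≤ 2 ^ t}).ncard : ℝ) := by
      obtain ⟨B, hB⟩ := twm_finset a m
      have h7 : ({E ∈ twm a m | GoodX K a S E}).ncard ≤
          ({E ∈ twm a m | sz (cur K (a r0) E) k[X] ≤ 2 ^ t}).ncard := by
        apply Set.ncard_le_ncard
        · rintro E ⟨hE, e, he, hr⟩
          refine ⟨hE, (sz_le (hr r0)).trans ?_⟩
          exact Nat.pow_le_pow_right (by norm_num) (hS e he)
        · rw [hB]
          exact B.finite_toSet.subset fun E hE => hE.1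
      exact_mod_cast h7
    refine le_trans ?_ (h4.trans h5)
    apply mul_le_mul_of_nonneg_right _ (Nat.cast_nonneg _)
    linarith
  have h3 := hmom (fun r => if r = r0 then 2 else 0) 1 one_pos
  filter_upwards [h1, h3] with m hm hm3 ho
  obtain ⟨B, hB⟩ := twm_finset a m
  have hm3' := hm3 ho
  rw [hB, finsum_mem_coe_finset, Set.ncard_coe_finset] at hm3' ⊢
  have h5 : ∏ r : R, ∏ i ∈ range (if r = r0 then 2 else 0), (1 + (2 : ℝ) ^ (i + 1)) = 15 := by
    rw [prod_eq_single r0]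
    · rw [if_pos rfl, prod_range_succ, prod_range_one]
      norm_num
    · intro r _ hr
      rw [if_neg hr, range_zero, prod_empty]
    · intro h
      exact absurd (mem_univ _) h
  have h6 : ∀ E, GG K a (fun r => if r = r0 then 2 else 0) E =
      (sz (cur K (a r0) E) k[X] : ℝ) ^ 2 := by
    intro E
    rw [GG, prod_eq_single r0]
    · rw [if_pos rfl]
    · intro r _ hr
      rw [if_neg hr, pow_zero]
    · intro h
      exact absurd (mem_univ _) h
  simp only [h5, h6] at hm3'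
  have hB0 : (0 : ℝ) ≤ (B.card : ℝ) := Nat.cast_nonneg _
  have h7 : ∀ t ∈ range T, ((B.filter fun E => 2 ^ t < sz (cur K (a r0) E) k[X]).card : ℝ) ≤
      (1 - ∑ i ∈ range (t + 1), law2 i + 2 * δ) * (B.card : ℝ) := by
    intro t ht
    have h8 := hm t ht ho
    have h9 : {E ∈ twm a m | sz (cur K (a r0) E) k[X] ≤ 2 ^ t} =
        ((B.filter fun E => ¬ 2 ^ t < sz (cur K (a r0) E) k[X] : Finset k[X]) : Set k[X]) := by
      rw [hB]
      ext E
      rw [Finset.mem_coe, mem_filter, not_lt]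
      exact Iff.rfl
    rw [h9, hB, Set.ncard_coe_finset, Set.ncard_coe_finset] at h8
    have h10 := card_filter_add_card_filter_not (s := B)
      (fun E => 2 ^ t < sz (cur K (a r0) E) k[X])
    have h11 : ((B.filter fun E => 2 ^ t < sz (cur K (a r0) E) k[X]).card : ℝ) +
      ((B.filter fun E => ¬ 2 ^ t < sz (cur K (a r0) E) k[X]).card : ℝ) = (B.card : ℝ) := by
      exact_mod_cast h10
    linarith
  have h8 : ∑ E ∈ B, Real.logb 2 (sz (cur K (a r0) E) k[X]) ≤
      ∑ E ∈ B, (∑ t ∈ range T, (if 2 ^ t < sz (cur K (a r0) E) k[X] then (1 : ℝ) else 0) +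
        (sz (cur K (a r0) E) k[X] : ℝ) ^ 2 / 2 ^ T) := sum_le_sum fun E _ => logb_le T _
  refine h8.trans ?_
  rw [sum_add_distrib, sum_comm, ← sum_div]
  have h9 : ∑ t ∈ range T, ∑ E ∈ B, (if 2 ^ t < sz (cur K (a r0) E) k[X] then (1 : ℝ) else 0) ≤
      (rho + ε / 2) * (B.card : ℝ) := by
    have h10 : ∀ t ∈ range T, ∑ E ∈ B, (if 2 ^ t < sz (cur K (a r0) E) k[X] then (1 : ℝ) else 0) ≤
        (1 - ∑ i ∈ range (t + 1), law2 i + 2 * δ) * (B.card : ℝ) := by
      intro t ht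
      rw [← sum_filter, sum_const, nsmul_eq_mul, mul_one]
      exact h7 t ht
    refine (sum_le_sum h10).trans ?_
    rw [← sum_mul, sum_add_distrib, sum_const, card_range, nsmul_eq_mul]
    apply mul_le_mul_of_nonneg_right _ hB0
    have h11 := tails T
    have h12 : (T : ℝ) * (2 * δ) ≤ ε / 2 := by
      rw [hδ, mul_div_assoc', mul_div_assoc', div_le_div_iff₀ (by positivity) (by norm_num)]
      nlinarith [show (0 : ℝ) ≤ T from Nat.cast_nonneg T]
    linarith
  have h10 : (∑ E ∈ B, (sz (cur K (a r0) E) k[X] : ℝ) ^ 2) / 2 ^ T ≤ ε / 2 * (B.card : ℝ) := by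
    rw [div_le_iff₀ (by positivity)]
    have h11 : (16 : ℝ) ≤ ε / 2 * 2 ^ T := by
      have h12 : (1 / 2 : ℝ) ^ T * 2 ^ T = 1 := by rw [← mul_pow]; norm_num
      have h13 := mul_le_mul_of_nonneg_right hT (show (0 : ℝ) ≤ 2 ^ T by positivity)
      rw [mul_assoc, h12] at h13
      linarith
    nlinarith
  linarith

end Pool.Agent.Q269.AV
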