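import Pool.Agent.Q269.AV.A4
import Pool.Agent.Q269.SL.Sp2

/-!
# The mean values in a class of twists
-/

set_option autoImplicit false
set_option linter.all false

namespace Pool.Agent.Q269.AV

open Finset Filter Topology
open Pool.Agent.Q269.MF
open Pool.Agent.Q269.SL
open scoped Classical

theorem tail_bb {f : ℕ → ℝ} (h0 : ∀ e, 0 ≤ f e) (h1 : ∀ e, f e ≤ (e : ℝ) * bb e) {n0 : ℕ}
    (hn0 : 6 ≤ n0) (n : ℕ) : ∑ e ∈ range n, f e ≤ ∑ e ∈ range n0, f e + 2 * n0 * bb n0 := by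
  have key : ∀ n : ℕ, n0 ≤ n → ∑ e ∈ range n, f e + 2 * n * bb n ≤
      ∑ e ∈ range n0, f e + 2 * n0 * bb n0 := by
    intro n hn
    induction n, hn using Nat.le_induction with
    | base => exact le_rfl
    | succ n hn ih =>
      rw [sum_range_succ]
      have e1 := bb_succ n
      have e2 := bb_pos n
      have e3 := bb_pos (n + 1)
      have hn6 : (6 : ℝ) ≤ n := by exact_mod_cast hn0.trans hn
      have h6 : (2 : ℝ) ^ (n + 1) - 1 ≥ 8 := by
        have : (2 : ℝ) ^ 7 ≤ 2 ^ (n + 1) := pow_le_pow_right₀ (by norm_num) (by omega)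
        norm_num at this
        linarith
      have h7 : 8 * bb (n + 1) ≤ 2 * bb n := by
        rw [← e1, mul_comm]
        exact mul_le_mul_of_nonneg_left h6 e3.le
      push_cast
      have h8 : 2 * ((n : ℝ) + 1) * bb (n + 1) ≤ (n : ℝ) * bb n := by
        have h9 : 2 * ((n : ℝ) + 1) ≤ 4 * n := by linarith
        have h10 := mul_le_mul_of_nonneg_right h9 e3.le
        have h11 : (n : ℝ) * (4 * bb (n + 1)) ≤ n * bb n := by
          apply mul_le_mul_of_nonneg_left _ (by linarith)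
          linarith
        linarith
      have h9 := h1 n
      linarith
  by_cases h : n0 ≤ n
  · have h2 := key n h
    have h3 : 0 ≤ 2 * (n : ℝ) * bb n := by
      have := bb_pos n
      positivity
    linarith
  · have h2 : ∑ e ∈ range n, f e ≤ ∑ e ∈ range n0, f e := by
      apply sum_le_sum_of_subset_of_nonneg
      · exact range_mono (by omega)
      · intro e _ _
        exact h0 e
    have h3 : 0 ≤ 2 * (n0 : ℝ) * bb n0 := by
      have := bb_pos n0
      positivity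
    linarith

theorem bb_seven : bb 7 = 128 / 78129765 := by
  have := bb_succ 6
  rw [bb_six] at this
  norm_num at this
  linarith
theorem bb_eight : bb 8 = 256 / 19923090075 := by
  have := bb_succ 7
  rw [bb_seven] at this
  norm_num at this
  linarith

/-- the weights in a class -/
noncomputable def bc (c : ZMod 2) (e : ℕ) : ℝ := if (e : ZMod 2) = c then bb e else 0

theorem lawc_bc (c : ZMod 2) (e : ℕ) : lawc c e = bet * bc c e := by
  rw [lawc_eq, bc, law2_bb]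
  split_ifs <;> ring

theorem bc_nonneg (c : ZMod 2) (e : ℕ) : 0 ≤ bc c e := by
  rw [bc]
  split_ifs
  · exact (bb_pos e).le
  · exact le_rfl

theorem bc_le (c : ZMod 2) (e : ℕ) : (e : ℝ) * bc c e ≤ (e : ℝ) * bb e := by
  apply mul_le_mul_of_nonneg_left _ (Nat.cast_nonneg _)
  rw [bc]
  split_ifs
  · exact le_rfl
  · exact (bb_pos e).le

theorem z2 : ((2 : ℕ) : ZMod 2) = 0 ∧ ((3 : ℕ) : ZMod 2) = 1 ∧ ((4 : ℕ) : ZMod 2) = 0 ∧
    ((5 : ℕ) : ZMod 2) = 1 ∧ ((6 : ℕ) : ZMod 2) = 0 ∧ ((7 : ℕ) : ZMod 2) = 1 ∧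
    ¬ ((0 : ZMod 2) = 1) ∧ ¬ ((1 : ZMod 2) = 0) := by decide

theorem bc0 : bc 0 0 = 1 ∧ bc 0 1 = 0 ∧ bc 0 2 = 4 / 3 ∧ bc 0 3 = 0 ∧ bc 0 4 = 16 / 315 ∧
    bc 0 5 = 0 ∧ bc 0 6 = 64 / 615195 := by
  obtain ⟨h2, h3, h4, h5, h6, h7, h01, h10⟩ := z2
  refine ⟨?_, ?_, ?_, ?_, ?_, ?_, ?_⟩
  · rw [bc, Nat.cast_zero, if_pos rfl, bb_zero]
  · rw [bc, Nat.cast_one, if_neg h10]
  · rw [bc, h2, if_pos rfl, bb_two]
  · rw [bc, h3, if_neg h10]
  · rw [bc, h4, if_pos rfl, bb_four]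
  · rw [bc, h5, if_neg h10]
  · rw [bc, h6, if_pos rfl, bb_six]

theorem bc1 : bc 1 0 = 0 ∧ bc 1 1 = 2 ∧ bc 1 2 = 0 ∧ bc 1 3 = 8 / 21 ∧ bc 1 4 = 0 ∧
    bc 1 5 = 32 / 9765 ∧ bc 1 6 = 0 ∧ bc 1 7 = 128 / 78129765 := by
  obtain ⟨h2, h3, h4, h5, h6, h7, h01, h10⟩ := z2
  refine ⟨?_, ?_, ?_, ?_, ?_, ?_, ?_, ?_⟩
  · rw [bc, Nat.cast_zero, if_neg h01]
  · rw [bc, Nat.cast_one, if_pos rfl, bb_one]
  · rw [bc, h2, if_neg h01]
  · rw [bc, h3, if_pos rfl, bb_three]
  · rw [bc, h4, if_neg h01]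
  · rw [bc, h5, if_pos rfl, bb_five]
  · rw [bc, h6, if_neg h01]
  · rw [bc, h7, if_pos rfl, bb_seven]

theorem bet_le0 : bet * (1466767 / 615195) ≤ 1 := by
  have h := sum_le_hasSum (range 7) (fun e _ => lawc_nonneg 0 e) (hasSum_lawc 0)
  rw [sum_congr rfl (fun e _ => lawc_bc 0 e), ← mul_sum] at h
  obtain ⟨a0, a1, a2, a3, a4, a5, a6⟩ := bc0
  simp only [sum_range_succ, range_zero, sum_empty, a0, a1, a2, a3, a4, a5, a6] at h
  norm_num at h ⊢
  linarith

theorem bet_le1 : bet * (3326 / 1395) ≤ 1 := by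
  have h := sum_le_hasSum (range 6) (fun e _ => lawc_nonneg 1 e) (hasSum_lawc 1)
  rw [sum_congr rfl (fun e _ => lawc_bc 1 e), ← mul_sum] at h
  obtain ⟨a0, a1, a2, a3, a4, a5, a6, a7⟩ := bc1
  simp only [sum_range_succ, range_zero, sum_empty, a0, a1, a2, a3, a4, a5] at h
  norm_num at h ⊢
  linarith

theorem sum_ec0 (n : ℕ) : ∑ e ∈ range n, (e : ℝ) * lawc 0 e ≤ 301 / 250 := by
  have h1 : ∑ e ∈ range n, (e : ℝ) * lawc 0 e = bet * ∑ e ∈ range n, (e : ℝ) * bc 0 e := by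
    rw [mul_sum]
    refine sum_congr rfl fun e _ => ?_
    rw [lawc_bc]
    ring
  rw [h1]
  have h2 := tail_bb (f := fun e => (e : ℝ) * bc 0 e)
    (fun e => mul_nonneg (Nat.cast_nonneg _) (bc_nonneg 0 e)) (bc_le 0) (n0 := 7) (by norm_num) n
  obtain ⟨a0, a1, a2, a3, a4, a5, a6⟩ := bc0
  simp only [sum_range_succ (fun e : ℕ => (e : ℝ) * bc 0 e), range_zero, sum_empty, a0, a1, a2, a3,
    a4, a5, a6, bb_seven] at h2
  push_cast at h2
  have h3 := mul_le_mul_of_nonneg_left h2 bet_nonneg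
  refine h3.trans ?_
  have h4 := bet_le0
  have h5 : bet * (301 / 250) * (1466767 / 615195) ≤ 301 / 250 := by nlinarith
  norm_num
  have h6 := bet_nonneg
  linarith

theorem sum_ec1 (n : ℕ) : ∑ e ∈ range n, (e : ℝ) * lawc 1 e ≤ 13251 / 10000 := by
  have h1 : ∑ e ∈ range n, (e : ℝ) * lawc 1 e = bet * ∑ e ∈ range n, (e : ℝ) * bc 1 e := by
    rw [mul_sum]
    refine sum_congr rfl fun e _ => ?_
    rw [lawc_bc]
    ring
  rw [h1]
  have h2 := tail_bb (f := fun e => (e : ℝ) * bc 1 e)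
    (fun e => mul_nonneg (Nat.cast_nonneg _) (bc_nonneg 1 e)) (bc_le 1) (n0 := 8) (by norm_num) n
  obtain ⟨a0, a1, a2, a3, a4, a5, a6, a7⟩ := bc1
  simp only [sum_range_succ (fun e : ℕ => (e : ℝ) * bc 1 e), range_zero, sum_empty, a0, a1, a2, a3,
    a4, a5, a6, a7, bb_eight] at h2
  push_cast at h2
  have h3 := mul_le_mul_of_nonneg_left h2 bet_nonneg
  refine h3.trans ?_
  have h4 := bet_le1
  norm_num
  have h6 := bet_nonneg
  linarith

/-- the mean of the law in a class -/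
noncomputable def rhoc (c : ZMod 2) : ℝ := ∑' e : ℕ, (e : ℝ) * lawc c e

theorem summable_ec (c : ZMod 2) : Summable fun e : ℕ => (e : ℝ) * lawc c e := by
  refine Summable.of_nonneg_of_le (fun e => mul_nonneg (Nat.cast_nonneg _) (lawc_nonneg c e))
    (fun e => ?_) (summable_elaw.mul_left 2)
  rw [lawc_eq]
  have h1 := law2_nonneg e
  have h2 : (0 : ℝ) ≤ e := Nat.cast_nonneg _
  split_ifs
  · linarith
  · rw [mul_zero]
    positivity

theorem rhoc_zero : rhoc 0 ≤ 301 / 250 :=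
  Real.tsum_le_of_sum_range_le (fun e => mul_nonneg (Nat.cast_nonneg _) (lawc_nonneg 0 e)) sum_ec0

theorem rhoc_one : rhoc 1 ≤ 13251 / 10000 :=
  Real.tsum_le_of_sum_range_le (fun e => mul_nonneg (Nat.cast_nonneg _) (lawc_nonneg 1 e)) sum_ec1

theorem rhoc_nonneg (c : ZMod 2) : 0 ≤ rhoc c :=
  tsum_nonneg fun e => mul_nonneg (Nat.cast_nonneg _) (lawc_nonneg c e)

/-- the sums of the tails of a law -/
theorem tails_gen {p : ℕ → ℝ} (h0 : ∀ e, 0 ≤ p e) (h1 : HasSum p 1)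
    (hs : Summable fun e : ℕ => (e : ℝ) * p e) (T : ℕ) :
    ∑ t ∈ range T, (1 - ∑ i ∈ range (t + 1), p i) ≤ ∑' e : ℕ, (e : ℝ) * p e := by
  have h2 : Tendsto (fun M : ℕ => ∑ t ∈ range T, (∑ i ∈ range M, p i -
      ∑ i ∈ range (t + 1), p i)) atTop (𝓝 (∑ t ∈ range T, (1 - ∑ i ∈ range (t + 1), p i))) := by
    apply tendsto_finsetSum
    intro t _
    exact h1.tendsto_sum_nat.sub_const _
  refine le_of_tendsto h2 ?_
  filter_upwards [eventually_ge_atTop T] with M hM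
  have h3 : ∑ t ∈ range T, (∑ i ∈ range M, p i - ∑ i ∈ range (t + 1), p i) =
      ∑ t ∈ range T, ∑ i ∈ range M, (if t < i then p i else 0) := by
    refine sum_congr rfl fun t ht => ?_
    rw [mem_range] at ht
    rw [← sum_filter, sub_eq_iff_eq_add]
    have h3 := sum_filter_add_sum_filter_not (range M) (fun i => t < i) p
    have h4 : (range M).filter (fun i => ¬ t < i) = range (t + 1) := by
      ext i
      rw [mem_filter, mem_range, mem_range]
      omega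
    rw [h4] at h3
    exact h3.symm
  rw [h3, sum_comm]
  have h4 : ∀ i ∈ range M, ∑ t ∈ range T, (if t < i then p i else 0) ≤ (i : ℝ) * p i := by
    intro i _
    rw [← sum_filter, sum_const, nsmul_eq_mul]
    apply mul_le_mul_of_nonneg_right _ (h0 i)
    have h4 : ((range T).filter (fun t => t < i)).card ≤ i := by
      have h5 : (range T).filter (fun t => t < i) ⊆ range i := by
        intro t ht
        rw [mem_filter] at ht
        exact mem_range.2 ht.2
      have := card_le_card h5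
      rwa [card_range] at this
    exact_mod_cast h4
  refine (sum_le_sum h4).trans ?_
  exact hs.sum_le_tsum _ fun e _ => mul_nonneg (Nat.cast_nonneg _) (h0 e)

/-- the mean of the logarithm from the law and the second moment -/
theorem log_gen {α : Type} (B : Finset α) (S : α → ℕ) {p : ℕ → ℝ} (h0 : ∀ e, 0 ≤ p e)
    (h1 : HasSum p 1) (hs : Summable fun e : ℕ => (e : ℝ) * p e) {T : ℕ} {δ V : ℝ}
    (hlaw : ∀ t ∈ range T, (∑ i ∈ range (t + 1), p i - δ) * (B.card : ℝ) ≤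
      ((B.filter fun E => S E ≤ 2 ^ t).card : ℝ))
    (hV : ∑ E ∈ B, (S E : ℝ) ^ 2 ≤ V * (B.card : ℝ)) :
    ∑ E ∈ B, Real.logb 2 (S E) ≤
      (∑' e : ℕ, (e : ℝ) * p e + T * δ + V / 2 ^ T) * (B.card : ℝ) := by
  have hB0 : (0 : ℝ) ≤ (B.card : ℝ) := Nat.cast_nonneg _
  have h7 : ∀ t ∈ range T, ((B.filter fun E => 2 ^ t < S E).card : ℝ) ≤
      (1 - ∑ i ∈ range (t + 1), p i + δ) * (B.card : ℝ) := by
    intro t ht
    have h8 := hlaw t ht
    have h10 := card_filter_add_card_filter_not (s := B) (fun E => 2 ^ t < S E)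
    have h12 : (B.filter fun E => ¬ 2 ^ t < S E) = B.filter fun E => S E ≤ 2 ^ t := by
      apply filter_congr
      intro E _
      exact not_lt
    rw [h12] at h10
    have h11 : ((B.filter fun E => 2 ^ t < S E).card : ℝ) +
      ((B.filter fun E => S E ≤ 2 ^ t).card : ℝ) = (B.card : ℝ) := by
      exact_mod_cast h10
    linarith
  have h8 : ∑ E ∈ B, Real.logb 2 (S E) ≤
      ∑ E ∈ B, (∑ t ∈ range T, (if 2 ^ t < S E then (1 : ℝ) else 0) +
        (S E : ℝ) ^ 2 / 2 ^ T) := sum_le_sum fun E _ => logb_le T _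
  refine h8.trans ?_
  rw [sum_add_distrib, sum_comm, ← sum_div]
  have h9 : ∑ t ∈ range T, ∑ E ∈ B, (if 2 ^ t < S E then (1 : ℝ) else 0) ≤
      (∑' e : ℕ, (e : ℝ) * p e + T * δ) * (B.card : ℝ) := by
    have h10 : ∀ t ∈ range T, ∑ E ∈ B, (if 2 ^ t < S E then (1 : ℝ) else 0) ≤
        (1 - ∑ i ∈ range (t + 1), p i + δ) * (B.card : ℝ) := by
      intro t ht
      rw [← sum_filter, sum_const, nsmul_eq_mul, mul_one]
      exact h7 t ht
    refine (sum_le_sum h10).trans ?_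
    rw [← sum_mul, sum_add_distrib, sum_const, card_range, nsmul_eq_mul]
    apply mul_le_mul_of_nonneg_right _ hB0
    have h11 := tails_gen h0 h1 hs T
    linarith
  have h10 : (∑ E ∈ B, (S E : ℝ) ^ 2) / 2 ^ T ≤ V / 2 ^ T * (B.card : ℝ) := by
    rw [div_mul_eq_mul_div]
    exact div_le_div_of_nonneg_right hV (by positivity)
  linarith

end Pool.Agent.Q269.AV
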