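import Pool.Agent.Q269.AV.A5

/-!
# The moments in a class of twists
-/

set_option autoImplicit false
set_option linter.all false

namespace Pool.Agent.Q269.AV

open Finset Polynomial Filter Topology IsDedekindDomain
open Pool.Agent.Q269.MF
open Pool.Agent.Q269.SL
open Pool.Agent.Y164.SZ (L AT BT ok SYM0 SYM FDat Triv kLI AS nb KerP)
open Pool.Agent.Y164.HG (Geo Tau QQ EW cur F2 kc Del)
open Pool.Agent.Y164.PS (Sf mem_Sf Fam)
open scoped Classical

theorem hasSum_rho_par (s : ℕ) :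
    (fun e : ℕ => if Even (e + s) then 2 * law2 e else 0) = lawc (s : ZMod 2) := by
  funext e
  rw [lawc_eq]
  have h4 : ((e : ZMod 2) = (s : ZMod 2)) ↔ Even (e + s) := by
    rw [← ZMod.natCast_eq_zero_iff_even]
    push_cast
    have h5 : ∀ x y : ZMod 2, x = y ↔ x + y = 0 := by decide
    exact h5 _ _
  simp only [h4]

section one
variable {k : Type} [Field k] [Fintype k] [DecidableEq k]
variable {n : ℕ} [Fact (Odd n)] {a : Fin n → k[X]} {N : ℕ} (H : Geo a N)

include H in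
/-- the moments in a class -/
theorem cls_mom (hi : IsSquare (-1 : k)) (hchar : ringChar k ≠ 2) (hq : 4 ≤ Fintype.card k)
    (K : Type) [Field K] [Algebra k[X] K] [IsFractionRing k[X] K]
    (σ : Tau a → ZMod 2) (j : ℕ) {ε : ℝ} (hε : 0 < ε) :
    ∀ᶠ m : ℕ in atTop, Odd (m + N) →
      ∑ D ∈ Cl H σ m, (sz (cur K a D) k[X] : ℝ) ^ j ≤
        (∏ i ∈ range j, (1 + (2 : ℝ) ^ (i + 1)) + ε) * ((Cl H σ m).card : ℝ) := by
  have S' : SYM 2 k := sym hchar hi
  have hF : Fam (Q2 (R := Unit) (n := fun _ => n) fun _ => a) := by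
    refine Q2_fam (N := fun _ => N) (fun _ => H) ?_
    intro r r' h
    exact absurd (Subsingleton.elim r r') h
  obtain ⟨M, hM⟩ : ∃ M : ℝ, M = ∏ i ∈ range j, (1 + (2 : ℝ) ^ (i + 1)) := ⟨_, rfl⟩
  have hM0 : 0 < M := by
    rw [hM]
    exact prod_pos fun i _ => by positivity
  have hmo : ∏ r : Unit, mo 2 ((fun _ : Unit => j) r) = M := by
    rw [univ_unique, prod_singleton, mo, hM]
    refine prod_congr rfl fun i _ => ?_
    rw [ka, if_pos rfl]
    push_cast
    ring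
  obtain ⟨σ', hσ'⟩ : ∃ σ' : (Σ r : Unit, Tau a) → ZMod 2, σ' = fun x => σ x.2 := ⟨_, rfl⟩
  have hcell : ∀ δ : ℝ, 0 < δ →
      CellW (Q2 (R := Unit) (n := fun _ => n) fun _ => a) σ'
        (gM (datT (R := Unit) (n := fun _ => n) (a := fun _ => a) (N := fun _ => N)
        (fun _ => H) 0)) (fun x => ∀ r : Unit, IsUnit (x + (N : ZMod 2)))
        (FW (datT (R := Unit) (n := fun _ => n) (a := fun _ => a) (N := fun _ => N)
        (fun _ => H) σ') (Q2 (R := Unit) (n := fun _ => n) fun _ => a) (fun _ => j)) (M + δ) := by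
    intro δ hδ
    have h3 := cell_w (datT (R := Unit) (n := fun _ => n) (a := fun _ => a) (N := fun _ => N)
        (fun _ => H) σ') (Q := Q2 (R := Unit) (n := fun _ => n) fun _ => a) (fun r =>
        card_ge_two (tF_CN (H.conn (fun s => σ' ⟨r, s⟩)))) (fun r =>
          tF_CN (H.conn (fun s => σ' ⟨r, s⟩)))
      (fun hS0 ι _ d _ r T w hw => by
        apply tF_diag _ _ _ _ _ hw
        intro i j
        exact hS0.L_comm _ _) (fun _ => j) hδ
    rw [datT_sp, datT_g] at h3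
    simp only [datT_N] at h3
    rw [hmo] at h3
    exact h3
  obtain ⟨t, ht⟩ : ∃ t, t = Fintype.card (Tau a) := ⟨_, rfl⟩
  have h2t : (0 : ℝ) < 2 ^ t := by positivity
  obtain ⟨δ, hδ⟩ : ∃ δ : ℝ, δ = ε / (1 + M + ε) := ⟨_, rfl⟩
  have hδ0 : 0 < δ := by rw [hδ]; positivity
  have hδ1 : M + δ ≤ (M + ε) * (1 - δ) := by
    have h1 : δ * (1 + M + ε) = ε := by
      rw [hδ]
      exact div_mul_cancel₀ _ (by positivity)
    nlinarith
  have hw1 : 1 ≤ ∏ r : Unit, Fintype.card (EW n) ^ ((fun _ : Unit => j) r) := by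
    apply Nat.one_le_iff_ne_zero.2
    apply Finset.prod_ne_zero_iff.2
    intro r _
    have h3 := card_ge_two (tF_CN (H.conn (fun _ => 0)))
    exact pow_ne_zero _ (by omega)
  obtain ⟨C0, hC0⟩ : ∃ C0 : ℝ, C0 = ∏ r : Unit, ((2 : ℝ) ^ Fintype.card (Tau a)) ^
    ((fun _ : Unit => j) r) := ⟨_, rfl⟩
  have hC00 : 0 ≤ C0 := by
    rw [hC0]
    positivity
  have hb : ∀ n' : ℕ, (∀ r : Unit, IsUnit ((n' : ZMod 2) + (N : ZMod 2))) → ∀ E ∈ Sf k n',
      nb (Q2 (R := Unit) (n := fun _ => n) fun _ => a) E →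
      GG (R := Unit) K (fun _ => a) (fun _ => j) E ≤ C0 *
        ((∏ r : Unit, Fintype.card (EW n) ^ ((fun _ : Unit => j) r) : ℕ) : ℝ) ^
          (Pool.Agent.Y164.PS.pf E).card := by
    intro n' hU E hE hn
    refine triv_bd (U := fun x => ∀ r : Unit, IsUnit (x + (N : ZMod 2))) S' hF
      (FF := fun σ => FW (datT (R := Unit) (n := fun _ => n) (a := fun _ => a) (N := fun _ => N)
        (fun _ => H) σ) (Q2 (R := Unit) (n := fun _ => n) fun _ => a) (fun _ => j))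
      (fun σ => imp_w (R := Unit) (n := fun _ => n) (a := fun _ => a) (N := fun _ => N)
        (fun _ => H) hchar K (fun _ => j) σ) (fun σ ι _ d T => ?_) hU hE hn
    rw [hC0]
    exact FW_le (R := Unit) (n := fun _ => n) (a := fun _ => a) _ (fun _ => j) ι d T
  have h := class_w S' hF hchar hq (imp_w (R := Unit) (n := fun _ => n) (a := fun _ => a)
    (N := fun _ => N) (fun _ => H) hchar K (fun _ => j) σ') hC00 hw1 hb hM0.le hcell δ hδ0
  filter_upwards [h, cls_size H hi hchar hq σ hδ0] with m hm hm2 ho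
  have hu : ∀ r : Unit, IsUnit ((m : ZMod 2) + (N : ZMod 2)) := by
    intro _
    have h4 : ((m + N : ℕ) : ZMod 2) = 1 := (ZMod.natCast_eq_one_iff_odd).2 ho
    have h5 : (m : ZMod 2) + (N : ZMod 2) = 1 := by
      rw [← h4]
      push_cast
      rfl
    rw [h5]
    exact isUnit_one
  have h1 := hm hu
  obtain ⟨h3, -⟩ := hm2 ho
  have e1 : (Sf k m).filter (nb (Q2 (R := Unit) (n := fun _ => n) fun _ => a)) =
      (Sf k m).filter (nb (QQ a)) := filter_congr fun D _ => nb_one D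
  have e2 : (Sf k m).filter (Pc σ' (gM (datT (R := Unit) (n := fun _ => n) (a := fun _ => a)
      (N := fun _ => N) (fun _ => H) 0)) (Q2 (R := Unit) (n := fun _ => n) fun _ => a)) =
      Cl H σ m := by
    rw [Cl]
    refine filter_congr fun D _ => ?_
    rw [Pc, nb_one, hσ']
    exact and_congr_right fun _ => gcla_one H σ D
  have e3 : ∀ D, GG (R := Unit) K (fun _ => a) (fun _ => j) D = (sz (cur K a D) k[X] : ℝ) ^ j := by
    intro D
    rw [GG, univ_unique, prod_singleton]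
  have e4 : Fintype.card (Σ r : Unit, Tau a) = t := by
    rw [ht]
    exact Pool.Agent.Q269.SL.card_one
  rw [e1, e2, sum_congr rfl (fun D _ => e3 D)] at h1
  change (2 : ℝ) ^ Fintype.card (Σ r : Unit, Tau a) * _ ≤ _ at h1
  rw [e4] at h1
  rw [← ht] at h3
  rw [← hM]
  have h5 : (2 : ℝ) ^ t * ∑ D ∈ Cl H σ m, (sz (cur K a D) k[X] : ℝ) ^ j ≤
      2 ^ t * ((M + ε) * ((Cl H σ m).card : ℝ)) := by
    refine h1.trans ?_
    calc (M + δ) * (((Sf k m).filter (nb (QQ a))).card : ℝ) ≤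
        ((M + ε) * (1 - δ)) * (((Sf k m).filter (nb (QQ a))).card : ℝ) :=
          mul_le_mul_of_nonneg_right hδ1 (Nat.cast_nonneg _)
      _ = (M + ε) * ((1 - δ) * (((Sf k m).filter (nb (QQ a))).card : ℝ)) := by ring
      _ ≤ (M + ε) * (2 ^ t * ((Cl H σ m).card : ℝ)) :=
          mul_le_mul_of_nonneg_left h3 (by linarith)
      _ = _ := by ring
  exact le_of_mul_le_mul_left h5 h2t

include H in
/-- the mean of the logarithm in a class -/
theorem cls_log (hi : IsSquare (-1 : k)) (hchar : ringChar k ≠ 2) (hq : 4 ≤ Fintype.card k)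
    (K : Type) [Field K] [Algebra k[X] K] [IsFractionRing k[X] K]
    (σ : Tau a → ZMod 2) {ε : ℝ} (hε : 0 < ε) :
    ∀ᶠ m : ℕ in atTop, Odd (m + N) →
      ∑ D ∈ Cl H σ m, Real.logb 2 (sz (cur K a D) k[X]) ≤
        (rhoc ((Fintype.card (Tau a) : ZMod 2) + ∑ s, σ s) + ε) * ((Cl H σ m).card : ℝ) := by
  obtain ⟨c, hc⟩ : ∃ c : ZMod 2, c = (Fintype.card (Tau a) : ZMod 2) + ∑ s, σ s := ⟨_, rfl⟩
  obtain ⟨T, hT⟩ : ∃ T : ℕ, 32 * (1 / 2 : ℝ) ^ T ≤ ε := by
    have h1 : Tendsto (fun T : ℕ => 32 * (1 / 2 : ℝ) ^ T) atTop (𝓝 (32 * 0)) :=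
      (tendsto_pow_atTop_nhds_zero_of_lt_one (by norm_num) (by norm_num)).const_mul 32
    rw [mul_zero] at h1
    exact (h1.eventually_le_const hε).exists
  obtain ⟨δ, hδ⟩ : ∃ δ : ℝ, δ = ε / (2 * (T + 1)) := ⟨_, rfl⟩
  have hδ0 : 0 < δ := by rw [hδ]; positivity
  have h1 : ∀ᶠ m : ℕ in atTop, ∀ t ∈ range T, Odd (m + N) →
      (∑ i ∈ range (t + 1), lawc c i - δ) * ((Cl H σ m).card : ℝ) ≤
        (((Cl H σ m).filter fun D => sz (cur K a D) k[X] ≤ 2 ^ t).card : ℝ) := by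
    rw [Filter.eventually_all_finset]
    intro t _
    obtain ⟨𝒜, h𝒜⟩ : ∃ 𝒜 : Set ℕ, ∀ e, e ∈ 𝒜 ↔ e ≤ t := ⟨{e | e ≤ t}, fun _ => Iff.rfl⟩
    filter_upwards [cls_law H hi hchar hq K σ 𝒜 hδ0] with m hm ho
    have h4 := hm ho
    rw [← hc] at h4
    have h5 : (∑' e : ℕ, if e ∈ 𝒜 then lawc c e else 0) =
        ∑ i ∈ range (t + 1), lawc c i := by
      rw [tsum_eq_sum (s := range (t + 1))]
      · refine sum_congr rfl fun e he => ?_
        rw [mem_range] at he
        rw [if_pos]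
        exact (h𝒜 e).2 (Nat.lt_succ_iff.1 he)
      · intro e he
        rw [mem_range] at he
        rw [if_neg]
        intro h
        exact he (Nat.lt_succ_iff.2 ((h𝒜 e).1 h))
    rw [h5] at h4
    refine h4.trans ?_
    have h6 : ((Cl H σ m).filter fun D => ∃ e ∈ 𝒜,
        BoundedBy (cur K a D) k[X] (2 ^ e)) ⊆
        ((Cl H σ m).filter fun D => sz (cur K a D) k[X] ≤ 2 ^ t) := by
      intro D hD
      obtain ⟨g1, e, he, g2⟩ := mem_filter.1 hD
      exact mem_filter.2 ⟨g1, (sz_le g2).trans (Nat.pow_le_pow_right (by norm_num) ((h𝒜 e).1 he))⟩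
    exact_mod_cast card_le_card h6
  filter_upwards [h1, cls_mom H hi hchar hq K σ 2 one_pos] with m hm hm2 ho
  have h3 := hm2 ho
  have h4 : ∏ i ∈ range 2, (1 + (2 : ℝ) ^ (i + 1)) + 1 = 16 := by
    rw [prod_range_succ, prod_range_one]
    norm_num
  rw [h4] at h3
  have h5 := log_gen (Cl H σ m) (fun D => sz (cur K a D) k[X]) (p := lawc c)
    (fun e => lawc_nonneg c e) (hasSum_lawc c) (summable_ec c) (T := T) (δ := δ) (V := 16)
    (fun t ht => hm t ht ho) h3
  refine h5.trans ?_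
  apply mul_le_mul_of_nonneg_right _ (Nat.cast_nonneg _)
  rw [← hc]
  have h6 : (T : ℝ) * δ ≤ ε / 2 := by
    rw [hδ, mul_div_assoc', div_le_div_iff₀ (by positivity) (by norm_num)]
    nlinarith [show (0 : ℝ) ≤ T from Nat.cast_nonneg T]
  have h7 : (16 : ℝ) / 2 ^ T ≤ ε / 2 := by
    have h12 : (1 / 2 : ℝ) ^ T * 2 ^ T = 1 := by rw [← mul_pow]; norm_num
    have h13 := mul_le_mul_of_nonneg_right hT (show (0 : ℝ) ≤ 2 ^ T by positivity)
    rw [mul_assoc, h12] at h13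
    rw [div_le_iff₀ (by positivity)]
    linarith
  have h8 : (∑' e : ℕ, (e : ℝ) * lawc c e) = rhoc c := rfl
  rw [h8]
  linarith

end one

/-- **moments and mean rank for given reduction at the bad places** -/
theorem split_mom {k : Type} [Field k] [Finite k]
    (h2 : (2 : k) ≠ 0) (hi : IsSquare (-1 : k))
    (K : Type) [Field K] [Algebra k[X] K] [IsFractionRing k[X] K]
    (N : ℕ) (hN : 1 ≤ N) (a : Fin 3 → k[X])
    (hdeg : ∀ i j, i ≠ j → (a i - a j).natDegree = N) (hsq : Squarefree (Del a)) :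
    (∀ m : ℕ, Odd (m + N) → ∀ D ∈ Tw3 a m,
      BoundedBy (cur K a D) k[X] (sz (cur K a D) k[X])) ∧
    ∀ S : Set k[X], S ⊆ BadP a →
    (∀ j : ℕ, ∀ ε : ℝ, 0 < ε → ∀ᶠ m : ℕ in atTop, Odd (m + N) →
      ∑ᶠ D ∈ ClS a S m, (sz (cur K a D) k[X] : ℝ) ^ j ≤
        (∏ i ∈ range j, (1 + (2 : ℝ) ^ (i + 1)) + ε) * ((ClS a S m).ncard : ℝ)) ∧
    ∀ ε : ℝ, 0 < ε → ∀ᶠ m : ℕ in atTop, Odd (m + N) →
      ∑ᶠ D ∈ ClS a S m, Real.logb 2 (sz (cur K a D) k[X]) ≤
        (rhoc (S.ncard : ZMod 2) + ε) * ((ClS a S m).ncard : ℝ) := by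
  letI : Fintype k := Fintype.ofFinite k
  have hchar : ringChar k ≠ 2 := by
    intro h
    apply h2
    have := ringChar.Nat.cast_ringChar (R := k)
    rw [h] at this
    exact_mod_cast this
  have hq := Pool.Agent.Y164.HG.four_le h2 hi
  have H : Geo a N := ⟨hchar, hi, ⟨1, rfl⟩, le_rfl, hN, hdeg, hsq⟩
  constructor
  · intro m ho D hD
    have h1 := (final_mom h2 hi K (R := Unit) (n := fun _ => 3) (fun _ => ⟨1, rfl⟩)
      (fun _ => le_rfl) (fun _ => N) (fun _ => hN) (fun _ => a) (fun _ => hdeg) (fun _ => hsq)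
      (fun r r' h => absurd (Subsingleton.elim r r') h)).1 m (fun _ => ho) D
      ⟨hD.1, hD.2.1, hD.2.2.1, fun _ => hD.2.2.2⟩ ()
    exact h1
  intro S hS
  have hpar := sgS_sum H hS
  constructor
  · intro j ε hε
    filter_upwards [cls_mom H hi hchar hq K (sgS a S) j hε] with m hm ho
    have h3 := hm ho
    rw [← clS_coe H hchar hS, finsum_mem_coe_finset, Set.ncard_coe_finset]
    exact h3
  · intro ε hε
    filter_upwards [cls_log H hi hchar hq K (sgS a S) hε] with m hm ho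
    have h3 := hm ho
    rw [hpar] at h3
    rw [← clS_coe H hchar hS, finsum_mem_coe_finset, Set.ncard_coe_finset]
    exact h3

end Pool.Agent.Q269.AV
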