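import Pool.Agent.Q269.MF.Lv
import Pool.Agent.Q269.MF.Tf

/-!
# The powers of the order of a kernel in terms of the numbers of independent tuples
-/

set_option autoImplicit false
set_option linter.all false

namespace Pool.Agent.Q269.AV

open Finset
open Pool.Agent.Y164.SZ (AS FDat KerP kLI kLI_eq card_AS)
open Pool.Agent.Q269.MF
open scoped Classical

/-- the Gaussian binomial coefficients -/
noncomputable def cg (x : ℝ) : ℕ → ℕ → ℝ
  | 0, 0 => 1
  | 0, _ + 1 => 0
  | n + 1, 0 => cg x n 0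
  | n + 1, j + 1 => cg x n j + x ^ (j + 1) * cg x n (j + 1)

theorem cg_zero (x : ℝ) (n : ℕ) : cg x n 0 = 1 := by
  induction n with
  | zero => rfl
  | succ n ih => rw [cg, ih]

theorem cg_big (x : ℝ) (n : ℕ) : ∀ j, n < j → cg x n j = 0 := by
  induction n with
  | zero =>
    intro j hj
    obtain ⟨i, rfl⟩ : ∃ i, j = i + 1 := ⟨j - 1, by omega⟩
    rfl
  | succ n ih =>
    intro j hj
    obtain ⟨i, rfl⟩ : ∃ i, j = i + 1 := ⟨j - 1, by omega⟩
    rw [cg, ih i (by omega), ih (i + 1) (by omega)]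
    ring

theorem cg_nonneg {x : ℝ} (hx : 0 ≤ x) (n : ℕ) : ∀ j, 0 ≤ cg x n j := by
  induction n with
  | zero =>
    intro j
    rcases j with _ | j
    · rw [cg_zero]; norm_num
    · rw [cg_big x 0 _ (Nat.succ_pos _)]
  | succ n ih =>
    intro j
    rcases j with _ | j
    · rw [cg_zero]; norm_num
    · rw [cg]
      have := ih j
      have := ih (j + 1)
      positivity

theorem cg_succ (x : ℝ) (n j : ℕ) : cg x (n + 1) (j + 1) = cg x n j + x ^ (j + 1) * cg x n (j + 1) :=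
  rfl

theorem cg_rec (x : ℝ) (n : ℕ) : ∀ j, x ^ j * cg x (n + 1) (j + 1) =
    x ^ n * cg x n j + x ^ j * cg x n (j + 1) := by
  induction n with
  | zero =>
    intro j
    rcases j with _ | j
    · rw [cg_succ, cg_zero, cg_big x 0 (0 + 1) (by norm_num)]
      ring
    · rw [cg_succ, cg_big x 0 (j + 1) (by omega), cg_big x 0 (j + 1 + 1) (by omega)]
      ring
  | succ n ih =>
    intro j
    rcases j with _ | j
    · have h1 := ih 0
      have h2 : cg x (n + 1) (0 + 1) = cg x n 0 + x ^ (0 + 1) * cg x n (0 + 1) := rfl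
      have h3 : cg x (n + 1 + 1) (0 + 1) = cg x (n + 1) 0 + x ^ (0 + 1) * cg x (n + 1) (0 + 1) := rfl
      rw [cg_zero] at h1 h2 h3
      rw [h3, cg_zero]
      rw [pow_zero, one_mul, one_mul, mul_one] at h1
      rw [pow_zero, one_mul, one_mul, mul_one]
      have h4 : x ^ (0 + 1) * cg x (n + 1) (0 + 1) = x ^ (n + 1) + x * cg x n (0 + 1) := by
        rw [h1]; ring
      rw [h4, h2]
      ring
    · have h1 := ih j
      have h2 := ih (j + 1)
      have h3 : cg x (n + 1) (j + 1) = cg x n j + x ^ (j + 1) * cg x n (j + 1) := rfl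
      have h4 : cg x (n + 1) (j + 1 + 1) = cg x n (j + 1) + x ^ (j + 1 + 1) * cg x n (j + 1 + 1) := rfl
      have h5 : cg x (n + 1 + 1) (j + 1 + 1) = cg x (n + 1) (j + 1) +
        x ^ (j + 1 + 1) * cg x (n + 1) (j + 1 + 1) := rfl
      rw [h5]
      calc x ^ (j + 1) * (cg x (n + 1) (j + 1) + x ^ (j + 1 + 1) * cg x (n + 1) (j + 1 + 1)) =
          x * (x ^ j * cg x (n + 1) (j + 1)) +
            x ^ (j + 2) * (x ^ (j + 1) * cg x (n + 1) (j + 1 + 1)) := by ring
        _ = x * (x ^ n * cg x n j + x ^ j * cg x n (j + 1)) +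
            x ^ (j + 2) * (x ^ n * cg x n (j + 1) + x ^ (j + 1) * cg x n (j + 1 + 1)) := by
          rw [h1, h2]
        _ = x ^ (n + 1) * (cg x n j + x ^ (j + 1) * cg x n (j + 1)) +
            x ^ (j + 1) * (cg x n (j + 1) + x ^ (j + 1 + 1) * cg x n (j + 1 + 1)) := by ring
        _ = _ := by rw [← h3, ← h4]

theorem pow_cg (x y : ℝ) (n : ℕ) :
    y ^ n = ∑ j ∈ range (n + 1), cg x n j * ∏ i ∈ range j, (y - x ^ i) := by
  induction n with
  | zero => simp [cg_zero]
  | succ n ih =>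
    rw [sum_range_succ', cg_zero, range_zero, prod_empty, mul_one]
    have h1 : ∀ j, cg x (n + 1) (j + 1) * ∏ i ∈ range (j + 1), (y - x ^ i) =
        y * (cg x n j * ∏ i ∈ range j, (y - x ^ i)) - x ^ j * (cg x n j * ∏ i ∈ range j, (y - x ^ i)) +
        x ^ (j + 1) * (cg x n (j + 1) * ∏ i ∈ range (j + 1), (y - x ^ i)) := by
      intro j
      rw [cg, prod_range_succ]
      ring
    rw [sum_congr rfl fun j _ => h1 j, sum_add_distrib, sum_sub_distrib, ← mul_sum, ← ih]
    have h2 : ∑ j ∈ range (n + 1), x ^ (j + 1) * (cg x n (j + 1) * ∏ i ∈ range (j + 1), (y - x ^ i)) + 1 =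
        ∑ j ∈ range (n + 1), x ^ j * (cg x n j * ∏ i ∈ range j, (y - x ^ i)) := by
      have h3 := sum_range_succ' (fun j => x ^ j * (cg x n j * ∏ i ∈ range j, (y - x ^ i))) (n + 1)
      rw [sum_range_succ, cg_big x n (n + 1) (by omega)] at h3
      simp only [zero_mul, mul_zero, add_zero, cg_zero, range_zero, prod_empty, pow_zero,
        mul_one] at h3
      exact h3.symm
    rw [← h2]
    ring

theorem sum_cg {x κ : ℝ} {a : ℕ → ℝ} (h0 : a 0 = 1) (ha : ∀ j, a (j + 1) = κ * x ^ j * a j) (n : ℕ) :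
    ∑ j ∈ range (n + 1), cg x n j * a j = ∏ i ∈ range n, (1 + κ * x ^ i) := by
  induction n with
  | zero => simp [cg_zero, h0]
  | succ n ih =>
    rw [prod_range_succ, ← ih, sum_range_succ', cg_zero, h0, mul_one]
    have h1 : ∀ j, cg x (n + 1) (j + 1) * a (j + 1) =
        κ * x ^ n * (cg x n j * a j) + cg x n (j + 1) * a (j + 1) := by
      intro j
      rw [ha]
      calc cg x (n + 1) (j + 1) * (κ * x ^ j * a j) = κ * a j * (x ^ j * cg x (n + 1) (j + 1)) := by ring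
        _ = κ * a j * (x ^ n * cg x n j + x ^ j * cg x n (j + 1)) := by rw [cg_rec]
        _ = _ := by ring
    rw [sum_congr rfl fun j _ => h1 j, sum_add_distrib, ← mul_sum]
    have h2 : ∑ j ∈ range (n + 1), cg x n (j + 1) * a (j + 1) + 1 =
        ∑ j ∈ range (n + 1), cg x n j * a j := by
      have h3 := sum_range_succ' (fun j => cg x n j * a j) (n + 1)
      rw [sum_range_succ, cg_big x n (n + 1) (by omega)] at h3
      simp only [zero_mul, add_zero, cg_zero, h0, mul_one] at h3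
      exact h3.symm
    rw [add_assoc, h2]
    ring

/-- the factor for the prime `ℓ` -/
noncomputable def ka (ℓ : ℕ) : ℝ := if ℓ = 2 then 2 else 1

/-- the moments of the order of the kernel -/
noncomputable def mo (ℓ n : ℕ) : ℝ := ∏ i ∈ range n, (1 + ka ℓ * (ℓ : ℝ) ^ i)

theorem ka_pos (ℓ : ℕ) : 0 < ka ℓ := by
  unfold ka
  split_ifs <;> norm_num

theorem mo_pos (ℓ n : ℕ) : 0 < mo ℓ n := by
  unfold mo
  apply prod_pos
  intro i _
  have := ka_pos ℓ
  positivity

theorem AS_zero' (ℓ : ℕ) [Fact ℓ.Prime] : ((AS ℓ 0).card : ℝ) = 1 := by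
  by_cases h : ℓ = 2
  · subst h
    rw [card_AS_two, aj]
    norm_num
  · rw [card_AS ℓ h]
    norm_num

theorem AS_succ (ℓ : ℕ) [Fact ℓ.Prime] (j : ℕ) :
    ((AS ℓ (j + 1)).card : ℝ) = ka ℓ * (ℓ : ℝ) ^ j * ((AS ℓ j).card : ℝ) := by
  by_cases h : ℓ = 2
  · subst h
    rw [card_AS_two, card_AS_two, aj_succ, ka, if_pos rfl]
    push_cast
    ring
  · rw [card_AS ℓ h, card_AS ℓ h, ka, if_neg h]
    push_cast
    rw [one_mul, ← pow_add]
    congr 1
    have h1 : (j + 1) * j = j * (j - 1) + j * 2 := by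
      rcases j with _ | j
      · rfl
      · simp only [Nat.add_sub_cancel]
        ring
    rw [h1, Nat.add_mul_div_right _ _ (by norm_num)]
    omega

theorem sum_cg_AS (ℓ : ℕ) [Fact ℓ.Prime] {n K : ℕ} (h : n ≤ K) :
    ∑ j ∈ range (K + 1), cg ℓ n j * ((AS ℓ j).card : ℝ) = mo ℓ n := by
  rw [mo, ← sum_cg (x := (ℓ : ℝ)) (κ := ka ℓ) (a := fun j => ((AS ℓ j).card : ℝ)) (AS_zero' ℓ)
    (AS_succ ℓ) n]
  symm
  apply sum_subset
  · intro j hj
    rw [mem_range] at hj ⊢
    omega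
  · intro j _ hj
    rw [mem_range, not_lt] at hj
    rw [cg_big _ _ _ (by omega), zero_mul]

section
variable {ℓ : ℕ} [hp : Fact ℓ.Prime] {W τ ι : Type} [AddCommGroup W] [Module (ZMod ℓ) W] [Fintype W]
  [Fintype τ] [Fintype ι] (D : FDat ℓ W τ)

theorem sum_cg_kLI (A : ι → ι → ZMod ℓ) (B : ι → τ → ZMod ℓ) (d : ι → ZMod ℓ) {n K : ℕ} (h : n ≤ K) :
    ∑ j ∈ range (K + 1), cg ℓ n j * (kLI D A B d j : ℝ) = (Nat.card (KerP D A B d) : ℝ) ^ n := by
  rw [pow_cg (ℓ : ℝ) _ n]
  symm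
  rw [← sum_subset (s₁ := range (n + 1)) (s₂ := range (K + 1))]
  · refine sum_congr rfl fun j _ => ?_
    rw [kLI_eq]
  · intro j hj
    rw [mem_range] at hj ⊢
    omega
  · intro j _ hj
    rw [mem_range, not_lt] at hj
    rw [cg_big _ _ _ (by omega), zero_mul]

end

end Pool.Agent.Q269.AV
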