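import Pool.Agent.Q269.AV.Cw

/-!
# The moments: squarefree polynomials with a given number of prime factors
-/

set_option autoImplicit false
set_option linter.all false

namespace Pool.Agent.Q269.AV

open Finset Polynomial Filter Topology
open Pool.Agent.Y164.SZ
open Pool.Agent.Y164.PS (coprime_of_not_dvd Fam
  Tp mem_Tp cell lgs cell_deg cell_eq lgs_eq self_cell cell_Tp cells_nonneg tup_prod fibre tuple_sum small_eq Pr mem_Pr card_Pr_ge
  Sf mem_Sf pf mem_pf numcore m_le Xt Xt_closed Xt_self sm conv)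
open Pool.Agent.Y164.HG (ty)
open Pool.Agent.Y290.SZ (ok_iff et_nonneg cell_inst)
open Pool.Agent.Q269.MF
open scoped Classical

variable {ℓ : ℕ} [hℓ : Fact ℓ.Prime]
variable {k : Type} [Field k] [Fintype k] [DecidableEq k]
variable {ι τ : Type} [Fintype ι] [Fintype τ]
variable {Q : τ → k[X]} {sp g : τ → ZMod ℓ} {U : ZMod ℓ → Prop}
  {F : (ι : Type) → [Fintype ι] → (ι → ZMod ℓ) → (ι → k[X]) → ℝ}

/-- `G` is at most `F` -/
def ImpW (Q : τ → k[X]) (sp g : τ → ZMod ℓ) (U : ZMod ℓ → Prop)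
    (F : (ι : Type) → [Fintype ι] → (ι → ZMod ℓ) → (ι → k[X]) → ℝ) (G : k[X] → ℝ) : Prop :=
  ∀ (ι : Type) [Fintype ι] (T : ι → k[X]), Fam (Sum.elim T Q) →
    cla sp g Q T → U (∑ i, ((T i).natDegree : ZMod ℓ)) →
    G (∏ i, T i) ≤ F ι (fun i => ((T i).natDegree : ZMod ℓ)) T

theorem lvl_tuples_w (hS : SYM ℓ k) (hk : ringChar k ≠ 2) (hQ : Fam Q) (hq : 4 ≤ Fintype.card k)
    {c : ℝ} {R w : ℕ} {C : ℝ} (hR : 1 ≤ R) (hCE : CEw Q sp g U F c R w C)
    {n z s : ℕ} (hn : U (n : ZMod ℓ)) (hz : 2 ≤ z) (hs : 1 ≤ s)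
    (hm : (R + 1) * s ≤ Fintype.card ι) (hA : C * (1 / 2) ^ s ≤ 1)
    (hB : et ℓ Q n z * (C * (w : ℝ) ^ Fintype.card ι) ≤ 1) :
    (ℓ : ℝ) ^ Fintype.card τ * ∑ T ∈ Xt k ι n z s, (if ok Q T ∧ cla sp g Q T then
        F ι (fun i => ((T i).natDegree : ZMod ℓ)) T else 0) ≤
      c * ∑ T ∈ Xt k ι n z s, (if ok Q T then (1 : ℝ) else 0) := by
  have key : ∀ T0 ∈ Xt k ι n z s,
      (ℓ : ℝ) ^ Fintype.card τ *
        XW Q sp g (F ι (fun i => ((T0 i).natDegree : ZMod ℓ))) (cell z T0) ≤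
      c * OK Q (cell z T0) := by
    intro T0 h0
    rw [Xt, mem_filter] at h0
    have hRs : s ≤ R * s := Nat.le_mul_of_pos_left s hR
    rw [add_mul, one_mul] at hm
    have hne : (lgs z T0).Nonempty := by
      rw [← card_pos]
      have := h0.2
      omega
    have hc := cell_inst (Q := Q) (ℓ := ℓ) hS hk hQ hq hz h0.1 hne
    apply hCE ι _ _ (lgs z T0) (ℓ * (n + dQ Q)) (et ℓ Q n z) s hc _ _ hs (by omega) h0.2 hA hB
    · have h1 : ∑ i, ((T0 i).natDegree : ZMod ℓ) = (n : ZMod ℓ) := by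
        rw [← (mem_Tp.1 h0.1).2]
        push_cast
        rfl
      rw [h1]
      exact hn
    · intro i hi
      rw [lgs, mem_filter] at hi
      push Not at hi
      exact ⟨T0 i, by rw [cell, if_pos (hi (mem_univ _))]⟩
  have h1 := cells_nonneg (z := z) (X := Xt k ι n z s) Xt_closed Xt_self
    (fun T => c * (if ok Q T then (1 : ℝ) else 0) - (ℓ : ℝ) ^ Fintype.card τ *
      (if ok Q T ∧ cla sp g Q T then F ι (fun i => ((T i).natDegree : ZMod ℓ)) T else 0)) (by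
      intro T0 h0
      have h2 := key T0 h0
      rw [sum_sub_distrib, ← mul_sum, ← mul_sum]
      have h3 : ∑ T ∈ Fintype.piFinset (cell z T0), (if ok Q T ∧ cla sp g Q T then
          F ι (fun i => ((T i).natDegree : ZMod ℓ)) T else 0)
          = XW Q sp g (F ι (fun i => ((T0 i).natDegree : ZMod ℓ))) (cell z T0) := by
        rw [XW]
        refine sum_congr rfl fun T hT => ?_
        simp only [cell_deg hT]
      rw [h3]
      exact sub_nonneg.2 h2)
  rw [sum_sub_distrib, ← mul_sum, ← mul_sum] at h1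
  exact sub_nonneg.1 h1

/-- the sum of a function over the tuples and over the polynomials -/
theorem conv_w (n z s : ℕ) (p : k[X] → Prop) (f : k[X] → ℝ) :
    ∑ T ∈ Xt k ι n z s, (if Function.Injective T ∧ p (∏ i, T i) then f (∏ i, T i) else 0) =
      ((Fintype.card ι).factorial : ℝ) *
        ∑ D ∈ (Sf k n).filter (fun D => (pf D).card = Fintype.card ι ∧ sm z D ≤ s ∧ p D), f D := by
  have h1 := tuple_sum (k := k) (ι := ι) n (fun D => if sm z D ≤ s ∧ p D then f D else 0)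
  have h2 : ∑ D ∈ (Sf k n).filter (fun D => (pf D).card = Fintype.card ι),
      (if sm z D ≤ s ∧ p D then f D else 0) =
      ∑ D ∈ (Sf k n).filter (fun D => (pf D).card = Fintype.card ι ∧ sm z D ≤ s ∧ p D), f D := by
    rw [← sum_filter, filter_filter]
  rw [h2] at h1
  rw [← h1, Xt, sum_filter, sum_filter]
  refine sum_congr rfl fun T hT => ?_
  by_cases h3 : Function.Injective T
  · have h4 := small_eq (z := z) hT h3
    have h5 : sm z (∏ i, T i) = Fintype.card ι - (lgs z T).card := h4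
    rw [← h5, if_pos h3]
    by_cases h6 : sm z (∏ i, T i) ≤ s
    · rw [if_pos h6]
      by_cases h7 : p (∏ i, T i)
      · rw [if_pos ⟨h3, h7⟩, if_pos ⟨h6, h7⟩]
      · rw [if_neg (fun h => h7 h.2), if_neg (fun h => h7 h.2)]
    · rw [if_neg h6, if_neg (fun h => h6 h.1)]
  · rw [if_neg h3]
    by_cases h6 : Fintype.card ι - (lgs z T).card ≤ s
    · rw [if_pos h6, if_neg (fun h => h3 h.1)]
    · rw [if_neg h6]

/-- the members of the class -/
def Pc (sp g : τ → ZMod ℓ) (Q : τ → k[X]) (E : k[X]) : Prop := nb Q E ∧ gcla sp g Q E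

/-- squarefree polynomials with a given number of prime factors -/
theorem lvl_w (hS : SYM ℓ k) (hk : ringChar k ≠ 2) (hQ : Fam Q) (hq : 4 ≤ Fintype.card k)
    (ι : Type) [Fintype ι] {G : k[X] → ℝ} (hG : ImpW Q sp g U F G)
    {c : ℝ} {R w : ℕ} {C : ℝ} (hR : 1 ≤ R) (hCE : CEw Q sp g U F c R w C)
    {n m z s : ℕ} (hcm : Fintype.card ι = m) (hn : U (n : ZMod ℓ)) (hz : 2 ≤ z)
    (hs : 1 ≤ s) (hm : (R + 1) * s ≤ m) (hA : C * (1 / 2) ^ s ≤ 1)
    (hB : et ℓ Q n z * (C * (w : ℝ) ^ m) ≤ 1) :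
    (ℓ : ℝ) ^ Fintype.card τ * ∑ E ∈ (Sf k n).filter (fun E => (pf E).card = m ∧ sm z E ≤ s ∧
        Pc sp g Q E), G E ≤
      c * (((Sf k n).filter fun E => (pf E).card = m ∧ sm z E ≤ s ∧ nb Q E).card : ℝ) := by
  have h0 := lvl_tuples_w (ι := ι) hS hk hQ hq hR hCE hn hz hs (by rw [hcm]; exact hm) hA
    (by rw [hcm]; exact hB)
  have hf : (0 : ℝ) < ((Fintype.card ι).factorial : ℝ) := by
    exact_mod_cast Nat.factorial_pos _
  have c2 := conv (k := k) (ι := ι) n z s (nb Q)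
  have c3 := conv_w (k := k) (ι := ι) n z s (Pc sp g Q) G
  rw [hcm] at c2 c3
  rw [hcm] at hf
  have e2 : ∑ T ∈ Xt k ι n z s, (if ok Q T then (1 : ℝ) else 0)
      = ∑ T ∈ Xt k ι n z s, (if Function.Injective T ∧ nb Q (∏ i, T i)
        then (1 : ℝ) else 0) := by
    refine sum_congr rfl fun T hT => ?_
    rw [Xt, mem_filter] at hT
    simp only [ok_iff hQ hT.1]
  have e3 : ∑ T ∈ Xt k ι n z s, (if Function.Injective T ∧ Pc sp g Q (∏ i, T i) then
        G (∏ i, T i) else 0) ≤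
      ∑ T ∈ Xt k ι n z s, (if ok Q T ∧ cla sp g Q T then
        F ι (fun i => ((T i).natDegree : ZMod ℓ)) T else 0) := by
    apply sum_le_sum
    intro T hT
    rw [Xt, mem_filter] at hT
    have h7 := (mem_Tp.1 hT.1)
    by_cases h1 : ok Q T ∧ cla sp g Q T
    · obtain ⟨h2, h3⟩ := h1
      have h5 := (ok_iff hQ hT.1).1 h2
      have h6 := (cla_iff' hS hQ hT.1 h5.2).1 h3
      have hR : Fam (Sum.elim T (Q)) := by
        refine ⟨?_, ?_, h2⟩
        · rintro (i | s)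
          · exact (h7.1 i).1
          · exact hQ.mon s
        · rintro (i | s)
          · exact (h7.1 i).2
          · exact hQ.irr s
      have h8 : U (∑ i, ((T i).natDegree : ZMod ℓ)) := by
        have h9 : ∑ i, ((T i).natDegree : ZMod ℓ) = (n : ZMod ℓ) := by
          rw [← h7.2]
          push_cast
          rfl
        rw [h9]
        exact hn
      have h9 := hG ι T hR h3 h8
      rw [if_pos ⟨h5.1, ⟨h5.2, h6⟩⟩, if_pos ⟨h2, h3⟩]
      exact h9
    · rw [if_neg h1, if_neg]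
      rintro ⟨h2, h3, h4⟩
      apply h1
      have h5 := (ok_iff hQ hT.1).2 ⟨h2, h3⟩
      exact ⟨h5, (cla_iff' hS hQ hT.1 h3).2 h4⟩
  rw [e2, c2] at h0
  rw [c3] at e3
  have hl : (0 : ℝ) ≤ (ℓ : ℝ) ^ Fintype.card τ := by positivity
  have h1 : (m.factorial : ℝ) * ((ℓ : ℝ) ^ Fintype.card τ * ∑ E ∈ (Sf k n).filter (fun E =>
      (pf E).card = m ∧ sm z E ≤ s ∧ Pc sp g Q E), G E) ≤ (m.factorial : ℝ) *
      (c * (((Sf k n).filter fun E => (pf E).card = m ∧ sm z E ≤ s ∧ nb Q E).card : ℝ)) := by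
    have h2 := (mul_le_mul_of_nonneg_left e3 hl).trans h0
    linarith
  exact le_of_mul_le_mul_left h1 hf

/-- the typical members of the class -/
theorem step_w (hS : SYM ℓ k) (hF : Fam Q) (hk : ringChar k ≠ 2)
    (hq : 4 ≤ Fintype.card k) {G : k[X] → ℝ} (hG : ImpW Q sp g U F G)
    {c : ℝ} (hc : 0 ≤ c) {R w : ℕ} {C : ℝ} (hR : 1 ≤ R) (hCE : CEw Q sp g U F c R w C)
    {A l n z s : ℕ} (hn : U (n : ZMod ℓ)) (hz : 2 ≤ z) (hs : 1 ≤ s) (hA : C * (1 / 2) ^ s ≤ 1)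
    (hB : ∀ m ≤ A * l, et ℓ Q n z * (C * (w : ℝ) ^ m) ≤ 1) :
    (ℓ : ℝ) ^ Fintype.card τ * ∑ E ∈ (Sf k n).filter (fun E => ty (R + 1) A l s z E ∧
        Pc sp g Q E), G E ≤ c * (((Sf k n).filter (nb Q)).card : ℝ) := by
  have key : ∀ m ∈ Icc ((R + 1) * s) (A * l),
      (ℓ : ℝ) ^ Fintype.card τ * ∑ E ∈ (Sf k n).filter (fun E => (pf E).card = m ∧ sm z E ≤ s ∧
        Pc sp g Q E), G E ≤
      c * (((Sf k n).filter fun E => (pf E).card = m ∧ sm z E ≤ s ∧ nb Q E).card : ℝ) :=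
    fun m hm => lvl_w hS hk hF hq (Fin m) hG hR hCE (Fintype.card_fin m) hn hz hs
      (mem_Icc.1 hm).1 hA (hB m (mem_Icc.1 hm).2)
  have e1 : ∑ E ∈ (Sf k n).filter (fun E => ty (R + 1) A l s z E ∧ Pc sp g Q E), G E =
      ∑ m ∈ Icc ((R + 1) * s) (A * l), ∑ E ∈ (Sf k n).filter (fun E => (pf E).card = m ∧
        sm z E ≤ s ∧ Pc sp g Q E), G E := by
    rw [← sum_fiberwise_of_maps_to (g := fun E => (pf E).card)
      (t := Icc ((R + 1) * s) (A * l))]
    · refine sum_congr rfl fun m hm => ?_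
      rw [filter_filter]
      refine sum_congr ?_ fun _ _ => rfl
      ext E
      rw [mem_Icc] at hm
      simp only [mem_filter, ty]
      constructor
      · rintro ⟨h1, ⟨⟨h2, h3, h4⟩, h5⟩, h6⟩
        exact ⟨h1, h6, h4, h5⟩
      · rintro ⟨h1, h2, h3, h4⟩
        exact ⟨h1, ⟨⟨by omega, by omega, h3⟩, h4⟩, h2⟩
    · intro E hE
      rw [mem_filter] at hE
      exact mem_Icc.2 ⟨hE.2.1.1, hE.2.1.2.1⟩
  have e2 : ∑ m ∈ Icc ((R + 1) * s) (A * l), (((Sf k n).filter fun E => (pf E).card = m ∧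
      sm z E ≤ s ∧ nb Q E).card : ℝ) ≤ (((Sf k n).filter (nb Q)).card : ℝ) := by
    rw [← Nat.cast_sum]
    have h3 : ∑ m ∈ Icc ((R + 1) * s) (A * l), ((Sf k n).filter fun E => (pf E).card = m ∧
        sm z E ≤ s ∧ nb Q E).card ≤ ((Sf k n).filter (nb Q)).card := by
      rw [← card_biUnion]
      · apply card_le_card
        intro E hE
        obtain ⟨m, -, h⟩ := mem_biUnion.1 hE
        obtain ⟨h4, h5⟩ := mem_filter.1 h
        exact mem_filter.2 ⟨h4, h5.2.2⟩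
      · intro m _ m' _ hne
        rw [Function.onFun, disjoint_left]
        intro E hE hE'
        exact hne ((mem_filter.1 hE).2.1.symm.trans (mem_filter.1 hE').2.1)
    exact_mod_cast h3
  rw [e1, mul_sum]
  refine (sum_le_sum key).trans ?_
  rw [← mul_sum]
  exact mul_le_mul_of_nonneg_left e2 hc

end Pool.Agent.Q269.AV
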