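import Pool.Agent.Q269.AV.Pw

/-!
# The moments: from the cells to all polynomials
-/

set_option autoImplicit false
set_option linter.all false

namespace Pool.Agent.Q269.AV

open Finset Polynomial Filter Topology
open Pool.Agent.Y164.SZ
open Pool.Agent.Y164.PS (coprime_of_not_dvd Fam Tp mem_Tp Sf mem_Sf pf mem_pf prod_pf)
open Pool.Agent.Y164.HG (ty)
open Pool.Agent.Y261.SZ (nb_lower)
open Pool.Agent.Q269.MF
open scoped Classical

variable {ℓ : ℕ} [hℓ : Fact ℓ.Prime]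
variable {k : Type} [Field k] [Fintype k] [DecidableEq k]
variable {τ : Type} [Fintype τ]
variable {Q : τ → k[X]} {g : τ → ZMod ℓ} {U : ZMod ℓ → Prop}

/-- the tuple of the prime factors -/
theorem enum (hQ : Fam Q) {n : ℕ} {E : k[X]} (hE : E ∈ Sf k n) (hn : nb Q E) :
    Fam (Sum.elim (fun i : {P // P ∈ pf E} => i.1) Q) ∧
      ∏ i : {P // P ∈ pf E}, i.1 = E ∧
      (fun i : {P // P ∈ pf E} => i.1) ∈ Tp k {P // P ∈ pf E} n := by
  have h0 : E ≠ 0 := (mem_Sf.1 hE).1.ne_zero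
  have h1 : ∀ i : {P // P ∈ pf E}, i.1.Monic ∧ Irreducible i.1 := fun i =>
    ⟨((mem_pf h0).1 i.2).1, ((mem_pf h0).1 i.2).2.1⟩
  have h2 : ∏ i : {P // P ∈ pf E}, i.1 = E := by
    have h3 := prod_pf hE
    rw [← Finset.prod_coe_sort] at h3
    exact h3
  refine ⟨⟨?_, ?_, ?_⟩, h2, ?_⟩
  · rintro (i | s)
    · exact (h1 i).1
    · exact hQ.mon s
  · rintro (i | s)
    · exact (h1 i).2
    · exact hQ.irr s
  · rintro (i | s) (j | t) h
    · exact congrArg Sum.inl (Subtype.ext h)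
    · exfalso
      apply hn t
      rw [← show i.1 = Q t from h]
      exact ((mem_pf h0).1 i.2).2.2
    · exfalso
      apply hn s
      rw [show Q s = j.1 from h]
      exact ((mem_pf h0).1 j.2).2.2
    · exact congrArg Sum.inr (hQ.inj h)
  · rw [mem_Tp]
    refine ⟨h1, ?_⟩
    rw [← natDegree_prod_of_monic _ _ fun i _ => (h1 i).1, h2]
    exact (mem_Sf.1 hE).2.1

/-- the trivial bound -/
theorem triv_bd (hS : SYM ℓ k) (hQ : Fam Q) {G : k[X] → ℝ}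
    {FF : (τ → ZMod ℓ) → (ι : Type) → [Fintype ι] → (ι → ZMod ℓ) → (ι → k[X]) → ℝ}
    (hG : ∀ σ, ImpW Q σ g U (FF σ) G) {C0 : ℝ} {w0 : ℕ}
    (hb : ∀ (σ : τ → ZMod ℓ) (ι : Type) [Fintype ι] (d : ι → ZMod ℓ) (T : ι → k[X]),
      FF σ ι d T ≤ C0 * (w0 : ℝ) ^ Fintype.card ι) {n : ℕ} (hU : U (n : ZMod ℓ)) {E : k[X]}
    (hE : E ∈ Sf k n) (hn : nb Q E) : G E ≤ C0 * (w0 : ℝ) ^ (pf E).card := by
  obtain ⟨h1, h2, h3⟩ := enum hQ hE hn
  obtain ⟨σ, hσ⟩ : ∃ σ : τ → ZMod ℓ, σ = fun s => -(L ℓ E (Q s) + g s) := ⟨_, rfl⟩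
  have h4 : gcla σ g Q E := by
    intro s
    rw [hσ]
    ring
  have h5 : cla σ g Q (fun i : {P // P ∈ pf E} => i.1) := by
    rw [cla_iff' hS hQ h3 (by rw [h2]; exact hn), h2]
    exact h4
  have h6 : ∑ i : {P // P ∈ pf E}, ((i.1.natDegree : ℕ) : ZMod ℓ) = (n : ZMod ℓ) := by
    rw [← (mem_Tp.1 h3).2]
    push_cast
    rfl
  have h7 := hG σ {P // P ∈ pf E} (fun i => i.1) h1 h5 (by rw [h6]; exact hU)
  rw [h2] at h7
  have h8 := hb σ {P // P ∈ pf E} (fun i => ((i.1.natDegree : ℕ) : ZMod ℓ)) (fun i => i.1)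
  rw [Fintype.card_coe] at h8
  exact h7.trans h8

/-- the moments in a class -/
theorem class_w (hS : SYM ℓ k) (hF : Fam Q) (hk : ringChar k ≠ 2) (hq : 4 ≤ Fintype.card k)
    {G : k[X] → ℝ} {σ : τ → ZMod ℓ}
    {F : (ι : Type) → [Fintype ι] → (ι → ZMod ℓ) → (ι → k[X]) → ℝ} (hG : ImpW Q σ g U F G)
    {C0 : ℝ} (hC0 : 0 ≤ C0) {w0 : ℕ} (hw0 : 1 ≤ w0)
    (hb : ∀ n : ℕ, U (n : ZMod ℓ) → ∀ E ∈ Sf k n, nb Q E → G E ≤ C0 * (w0 : ℝ) ^ (pf E).card)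
    {c : ℝ} (hc : 0 ≤ c) (hce : ∀ ε : ℝ, 0 < ε → CellW Q σ g U F (c + ε)) (ε : ℝ) (hε : 0 < ε) :
    ∀ᶠ n : ℕ in atTop, U (n : ZMod ℓ) →
      (ℓ : ℝ) ^ Fintype.card τ * ∑ E ∈ (Sf k n).filter (Pc σ g Q), G E ≤
        (c + ε) * (((Sf k n).filter (nb Q)).card : ℝ) := by
  obtain ⟨R, w, C, hR, hw, hC, hCE⟩ := hce (ε / 2) (half_pos hε)
  obtain ⟨c0, hc0, hlow⟩ := nb_lower hF hk hq
  obtain ⟨t, ht⟩ : ∃ t : ℝ, t = (ℓ : ℝ) ^ Fintype.card τ := ⟨_, rfl⟩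
  have ht0 : 0 < t := by
    rw [ht]
    have : (0 : ℝ) < ℓ := by exact_mod_cast hℓ.out.pos
    positivity
  obtain ⟨δ, hδ⟩ : ∃ δ : ℝ, δ = ε * c0 / (2 * (t * (C0 + 1))) := ⟨_, rfl⟩
  have hδ0 : 0 < δ := by rw [hδ]; positivity
  obtain ⟨A, hA⟩ := params_w (k := k) hk Q ℓ hw w0 hw0 (R + 1) C (by linarith) δ hδ0
  filter_upwards [hA, hlow] with n hn hl hu
  obtain ⟨l, s, z, h1, h2, h3, h4, h5⟩ := hn
  have k1 := step_w hS hF hk hq hG (show 0 ≤ c + ε / 2 by linarith) hR hCE (A := A) (l := l) hu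
    h2 h1 h3 h4
  have k2 : ∑ E ∈ (Sf k n).filter (Pc σ g Q), G E ≤
      ∑ E ∈ (Sf k n).filter (fun E => ty (R + 1) A l s z E ∧ Pc σ g Q E), G E +
      C0 * (δ * (Fintype.card k : ℝ) ^ n) := by
    have k3 : ∑ E ∈ (Sf k n).filter (Pc σ g Q), G E =
        ∑ E ∈ (Sf k n).filter (fun E => ty (R + 1) A l s z E ∧ Pc σ g Q E), G E +
        ∑ E ∈ (Sf k n).filter (fun E => ¬ ty (R + 1) A l s z E ∧ Pc σ g Q E), G E := by
      rw [← sum_filter_add_sum_filter_not ((Sf k n).filter (Pc σ g Q))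
        (fun E => ty (R + 1) A l s z E), filter_filter, filter_filter]
      congr 1
      · refine sum_congr ?_ fun _ _ => rfl
        ext E
        simp only [mem_filter]
        tauto
      · refine sum_congr ?_ fun _ _ => rfl
        ext E
        simp only [mem_filter]
        tauto
    rw [k3]
    apply add_le_add le_rfl
    have k4 : ∑ E ∈ (Sf k n).filter (fun E => ¬ ty (R + 1) A l s z E ∧ Pc σ g Q E), G E ≤
        ∑ E ∈ (Sf k n).filter (fun E => ¬ ty (R + 1) A l s z E ∧ Pc σ g Q E),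
          C0 * (w0 : ℝ) ^ (pf E).card := by
      apply sum_le_sum
      intro E hE
      rw [mem_filter] at hE
      exact hb n hu E hE.1 hE.2.2.1
    refine k4.trans ?_
    rw [← mul_sum]
    apply mul_le_mul_of_nonneg_left _ hC0
    refine le_trans ?_ h5
    apply sum_le_sum_of_subset_of_nonneg
    · intro E hE
      rw [mem_filter] at hE ⊢
      exact ⟨hE.1, hE.2.1⟩
    · intro E _ _
      positivity
  rw [← ht] at k1 ⊢
  set Y : ℝ := (((Sf k n).filter (nb Q)).card : ℝ) with hY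
  have k5 : t * (C0 * (δ * (Fintype.card k : ℝ) ^ n)) ≤ ε / 2 * Y := by
    have k6 : t * C0 * δ ≤ ε / 2 * c0 := by
      rw [hδ]
      have h7 : t * C0 * (ε * c0 / (2 * (t * (C0 + 1)))) = (C0 / (C0 + 1)) * (ε / 2 * c0) := by
        field_simp
      rw [h7]
      have h8 : C0 / (C0 + 1) ≤ 1 := by
        rw [div_le_one (by linarith)]
        linarith
      have h9 : 0 ≤ ε / 2 * c0 := by positivity
      nlinarith
    calc t * (C0 * (δ * (Fintype.card k : ℝ) ^ n)) = (t * C0 * δ) * (Fintype.card k : ℝ) ^ n := by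
          ring
      _ ≤ (ε / 2 * c0) * (Fintype.card k : ℝ) ^ n := mul_le_mul_of_nonneg_right k6 (by positivity)
      _ = ε / 2 * (c0 * (Fintype.card k : ℝ) ^ n) := by ring
      _ ≤ ε / 2 * Y := mul_le_mul_of_nonneg_left hl (by linarith)
  calc t * ∑ E ∈ (Sf k n).filter (Pc σ g Q), G E ≤
      t * (∑ E ∈ (Sf k n).filter (fun E => ty (R + 1) A l s z E ∧ Pc σ g Q E), G E +
        C0 * (δ * (Fintype.card k : ℝ) ^ n)) := mul_le_mul_of_nonneg_left k2 ht0.le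
    _ = t * ∑ E ∈ (Sf k n).filter (fun E => ty (R + 1) A l s z E ∧ Pc σ g Q E), G E +
        t * (C0 * (δ * (Fintype.card k : ℝ) ^ n)) := by ring
    _ ≤ (c + ε / 2) * Y + ε / 2 * Y := add_le_add k1 k5
    _ = _ := by ring

/-- the moments -/
theorem main_w (hS : SYM ℓ k) (hF : Fam Q) (hk : ringChar k ≠ 2) (hq : 4 ≤ Fintype.card k)
    {G : k[X] → ℝ}
    {FF : (τ → ZMod ℓ) → (ι : Type) → [Fintype ι] → (ι → ZMod ℓ) → (ι → k[X]) → ℝ}
    (hG : ∀ σ, ImpW Q σ g U (FF σ) G)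
    {C0 : ℝ} (hC0 : 0 ≤ C0) {w0 : ℕ} (hw0 : 1 ≤ w0)
    (hb : ∀ (σ : τ → ZMod ℓ) (ι : Type) [Fintype ι] (d : ι → ZMod ℓ) (T : ι → k[X]),
      FF σ ι d T ≤ C0 * (w0 : ℝ) ^ Fintype.card ι)
    {c : ℝ} (hc : 0 ≤ c) (hce : ∀ σ, ∀ ε : ℝ, 0 < ε → CellW Q σ g U (FF σ) (c + ε))
    (ε : ℝ) (hε : 0 < ε) :
    ∀ᶠ n : ℕ in atTop, U (n : ZMod ℓ) →
      ∑ E ∈ (Sf k n).filter (nb Q), G E ≤ (c + ε) * (((Sf k n).filter (nb Q)).card : ℝ) := by
  have hb' : ∀ n : ℕ, U (n : ZMod ℓ) → ∀ E ∈ Sf k n, nb Q E → G E ≤ C0 * (w0 : ℝ) ^ (pf E).card :=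
    fun n hU E hE hn => triv_bd hS hF hG hb hU hE hn
  have h1 : ∀ᶠ n : ℕ in atTop, ∀ σ ∈ (univ : Finset (τ → ZMod ℓ)), U (n : ZMod ℓ) →
      (ℓ : ℝ) ^ Fintype.card τ * ∑ E ∈ (Sf k n).filter (Pc σ g Q), G E ≤
        (c + ε) * (((Sf k n).filter (nb Q)).card : ℝ) := by
    rw [Filter.eventually_all_finset]
    intro σ _
    exact class_w hS hF hk hq (hG σ) hC0 hw0 hb' hc (hce σ) ε hε
  filter_upwards [h1] with n hn hu
  have h2 : ∑ E ∈ (Sf k n).filter (nb Q), G E =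
      ∑ σ : τ → ZMod ℓ, ∑ E ∈ (Sf k n).filter (Pc σ g Q), G E := by
    rw [← sum_fiberwise ((Sf k n).filter (nb Q))
      (fun E => (fun s => -(L ℓ E (Q s) + g s) : τ → ZMod ℓ)) G]
    refine sum_congr rfl fun σ _ => ?_
    rw [filter_filter]
    refine sum_congr ?_ fun _ _ => rfl
    ext E
    simp only [mem_filter, Pc]
    constructor
    · rintro ⟨h3, h4, h5⟩
      refine ⟨h3, h4, fun s => ?_⟩
      rw [← h5]
      ring
    · rintro ⟨h3, h4, h5⟩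
      refine ⟨h3, h4, ?_⟩
      funext s
      have h6 := h5 s
      have h7 : σ s = -(L ℓ E (Q s) + g s) := by
        rw [add_assoc] at h6
        exact eq_neg_of_add_eq_zero_left h6
      exact h7.symm
  have hl0 : (0 : ℝ) < (ℓ : ℝ) ^ Fintype.card τ := by
    have : (0 : ℝ) < ℓ := by exact_mod_cast hℓ.out.pos
    positivity
  have h3 := sum_le_sum fun σ (hσ : σ ∈ (univ : Finset (τ → ZMod ℓ))) => hn σ hσ hu
  rw [← mul_sum, ← h2, sum_const, nsmul_eq_mul, card_univ, Fintype.card_fun, ZMod.card] at h3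
  push_cast at h3
  exact le_of_mul_le_mul_left h3 hl0

end Pool.Agent.Q269.AV
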