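import Pool.Agent.Q269.AV.Lw

/-!
# The moments: the polynomials which are not typical
-/

set_option autoImplicit false
set_option linter.all false

namespace Pool.Agent.Q269.AV

open Finset Polynomial Filter Topology
open Pool.Agent.H341R2.Sharp
open Pool.Agent.Y164.SZ (et nb dQ)
open Pool.Agent.Y164.PS (coprime_of_not_dvd Fam Pr mem_Pr card_Pr_le
  Sf mem_Sf pf mem_pf sm card_Mon_dvd few_primes cb cb_pos tend_log2 asy2)
open Pool.Agent.Y164.HG (ty asy1 asy3 asy4 tend_div)
open Pool.Agent.Y261.SZ (et_le et_nonneg)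
open scoped Classical

variable {k : Type} [Field k] [Fintype k] [DecidableEq k]
variable {τ : Type} [Fintype τ] {Q : τ → k[X]}

theorem sum_inv (hk : ringChar k ≠ 2) (n y : ℕ) :
    ∑ P ∈ (Irr k n).filter (fun P => P.natDegree ≤ y), ((Fintype.card k : ℝ) ^ P.natDegree)⁻¹ ≤
      1 + Real.log y := by
  set q : ℝ := (Fintype.card k : ℝ) with hq
  have hq1 : 1 ≤ q := by
    rw [hq]; exact_mod_cast (Fintype.card_pos (α := k))
  have h3 : ∑ P ∈ (Irr k n).filter (fun P => P.natDegree ≤ y), (q ^ P.natDegree)⁻¹ ≤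
      ∑ d ∈ Icc 1 y, ∑ P ∈ Pr k d, (q ^ P.natDegree)⁻¹ := by
    rw [← sum_biUnion]
    · apply sum_le_sum_of_subset_of_nonneg
      · intro P hP
        rw [mem_filter, mem_Irr] at hP
        rw [mem_biUnion]
        exact ⟨P.natDegree, mem_Icc.2 ⟨hP.1.2.1.natDegree_pos, hP.2⟩,
          mem_Pr.2 ⟨hP.1.1, hP.1.2.1, rfl⟩⟩
      · intro _ _ _
        positivity
    · intro e _ e' _ hne
      rw [Function.onFun, disjoint_left]
      intro P hP hP'
      rw [mem_Pr] at hP hP'
      exact hne (hP.2.2.symm.trans hP'.2.2)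
  refine h3.trans ?_
  have h4 : ∀ d ∈ Icc 1 y, ∑ P ∈ Pr k d, (q ^ P.natDegree)⁻¹ ≤ ((d : ℝ))⁻¹ := by
    intro d hd
    rw [mem_Icc] at hd
    have hd0 : (0 : ℝ) < d := by exact_mod_cast hd.1
    rw [sum_congr rfl (fun P hP => by rw [(mem_Pr.1 hP).2.2]), sum_const, nsmul_eq_mul]
    have h5 := card_Pr_le (k := k) hk d hd.1
    have hqd : 0 < q ^ d := by positivity
    rw [← div_eq_mul_inv, div_le_iff₀ hqd, inv_mul_eq_div, le_div_iff₀ hd0]
    linarith
  refine (sum_le_sum h4).trans ?_
  have h5 := harmonic_le_one_add_log y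
  have h6 : ((harmonic y : ℚ) : ℝ) = ∑ d ∈ Icc 1 y, ((d : ℝ))⁻¹ := by
    rw [harmonic_eq_sum_Icc]
    push_cast
    rfl
  rw [← h6]
  exact h5

/-- the average of a multiplicative function -/
theorem sum_mult (hk : ringChar k ≠ 2) (n : ℕ) (u : k[X] → ℝ) (hu : ∀ P, 1 ≤ u P) :
    ∑ D ∈ Mon k n, ∏ P ∈ pf D, u P ≤ (Fintype.card k : ℝ) ^ n *
      ∏ P ∈ Irr k n, (1 + (u P - 1) * ((Fintype.card k : ℝ) ^ P.natDegree)⁻¹) := by
  set q : ℝ := (Fintype.card k : ℝ) with hq
  have hq1 : 1 ≤ q := by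
    rw [hq]; exact_mod_cast (Fintype.card_pos (α := k))
  have h1 : ∀ D ∈ Mon k n, ∏ P ∈ pf D, u P ≤
      ∑ S ∈ (Irr k n).powerset, (∏ P ∈ S, (u P - 1)) * (if (∏ P ∈ S, P) ∣ D then 1 else 0) := by
    intro D hD
    have h2 : ∏ P ∈ pf D, u P = ∏ P ∈ Irr k n, (1 + (if P ∣ D then u P - 1 else 0)) := by
      rw [pf, (mem_Mon.1 hD).2, prod_filter]
      refine prod_congr rfl fun P _ => ?_
      split_ifs <;> ring
    rw [h2, prod_one_add]
    apply sum_le_sum
    intro S hS
    rw [mem_powerset] at hS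
    by_cases h3 : ∀ P ∈ S, P ∣ D
    · have h4 : (∏ P ∈ S, P) ∣ D := by
        apply Finset.prod_dvd_of_coprime
        · intro P hP P' hP' hne
          have e1 := mem_Irr.1 (hS hP)
          have e2 := mem_Irr.1 (hS hP')
          apply coprime_of_not_dvd e2.2.1
          intro hd
          exact hne (eq_of_monic_of_associated e2.1 e1.1 (e2.2.1.associated_of_dvd e1.2.1 hd)).symm
        · exact h3
      rw [if_pos h4, mul_one]
      apply le_of_eq
      exact prod_congr rfl fun P hP => if_pos (h3 P hP)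
    · push Not at h3
      obtain ⟨P, hP, hn⟩ := h3
      have h4 : ∏ P ∈ S, (if P ∣ D then u P - 1 else 0) = 0 :=
        prod_eq_zero hP (if_neg hn)
      rw [h4]
      apply mul_nonneg
      · exact prod_nonneg fun P _ => by linarith [hu P]
      · split_ifs <;> norm_num
  refine (sum_le_sum h1).trans ?_
  rw [sum_comm, prod_one_add, mul_sum]
  apply sum_le_sum
  intro S hS
  rw [mem_powerset] at hS
  rw [← mul_sum, ← sum_filter, sum_const, nsmul_eq_mul, mul_one, prod_mul_distrib]
  have hmon : (∏ P ∈ S, P).Monic := monic_prod_of_monic _ _ fun P hP => (mem_Irr.1 (hS hP)).1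
  have hdeg : (∏ P ∈ S, P).natDegree = ∑ P ∈ S, P.natDegree :=
    natDegree_prod_of_monic _ _ fun P hP => (mem_Irr.1 (hS hP)).1
  have h3 : (((Mon k n).filter (fun D => (∏ P ∈ S, P) ∣ D)).card : ℝ) ≤
      q ^ n * ∏ P ∈ S, (q ^ P.natDegree)⁻¹ := by
    rw [card_Mon_dvd hk hmon, prod_inv_distrib, prod_pow_eq_pow_sum, ← hdeg]
    split_ifs with h4
    · push_cast
      rw [pow_sub₀ _ (by linarith) h4]
    · push_cast
      positivity
  have h4 : 0 ≤ ∏ P ∈ S, (u P - 1) := prod_nonneg fun P _ => by linarith [hu P]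
  calc (∏ P ∈ S, (u P - 1)) * (((Mon k n).filter (fun D => (∏ P ∈ S, P) ∣ D)).card : ℝ) ≤
      (∏ P ∈ S, (u P - 1)) * (q ^ n * ∏ P ∈ S, (q ^ P.natDegree)⁻¹) :=
        mul_le_mul_of_nonneg_left h3 h4
    _ = _ := by ring

/-- weights for the small and for the large primes -/
theorem sum_two (hk : ringChar k ≠ 2) (n z : ℕ) {w v : ℝ} (hw : 1 ≤ w) (hv : 1 ≤ v) :
    ∑ D ∈ Sf k n, w ^ (pf D).card * v ^ sm z D ≤ (Fintype.card k : ℝ) ^ n *
      Real.exp (w * (1 + Real.log n) + w * v * (1 + Real.log z)) := by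
  set q : ℝ := (Fintype.card k : ℝ) with hq
  have hq1 : 1 ≤ q := by
    rw [hq]; exact_mod_cast (Fintype.card_pos (α := k))
  obtain ⟨u, hu⟩ : ∃ u : k[X] → ℝ, u = fun P => w * (if P.natDegree < z then v else 1) :=
    ⟨_, rfl⟩
  have hu1 : ∀ P, 1 ≤ u P := by
    intro P
    rw [hu]
    dsimp only
    split_ifs
    · nlinarith
    · linarith
  have h1 := sum_mult hk n u hu1
  have h2 : ∑ D ∈ Sf k n, w ^ (pf D).card * v ^ sm z D ≤ ∑ D ∈ Mon k n, ∏ P ∈ pf D, u P := by
    have h3 : ∀ D ∈ Sf k n, w ^ (pf D).card * v ^ sm z D = ∏ P ∈ pf D, u P := by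
      intro D _
      rw [hu, prod_mul_distrib, prod_const, sm, ← prod_filter, prod_const]
    rw [sum_congr rfl h3]
    apply sum_le_sum_of_subset_of_nonneg (filter_subset _ _)
    intro D _ _
    exact prod_nonneg fun P _ => by linarith [hu1 P]
  refine h2.trans (h1.trans ?_)
  apply mul_le_mul_of_nonneg_left _ (by positivity)
  have h3 : ∏ P ∈ Irr k n, (1 + (u P - 1) * (q ^ P.natDegree)⁻¹) ≤
      ∏ P ∈ Irr k n, Real.exp ((u P - 1) * (q ^ P.natDegree)⁻¹) := by
    apply Finset.prod_le_prod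
    · intro P _
      have := hu1 P
      have h4 : 0 ≤ (u P - 1) * (q ^ P.natDegree)⁻¹ := mul_nonneg (by linarith) (by positivity)
      linarith
    · intro P _
      have := Real.add_one_le_exp ((u P - 1) * (q ^ P.natDegree)⁻¹)
      linarith
  refine h3.trans ?_
  rw [← Real.exp_sum]
  apply Real.exp_le_exp.2
  have h4 : ∑ P ∈ Irr k n, (u P - 1) * (q ^ P.natDegree)⁻¹ ≤
      ∑ P ∈ Irr k n, (w * (q ^ P.natDegree)⁻¹ +
        (if P.natDegree ≤ z then w * v * (q ^ P.natDegree)⁻¹ else 0)) := by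
    apply sum_le_sum
    intro P _
    have h5 : (0 : ℝ) < (q ^ P.natDegree)⁻¹ := by positivity
    have h6 : 0 ≤ w * v * (q ^ P.natDegree)⁻¹ := by
      apply mul_nonneg _ h5.le
      nlinarith
    rw [hu]
    dsimp only
    by_cases h7 : P.natDegree < z
    · rw [if_pos h7, if_pos h7.le]
      nlinarith
    · rw [if_neg h7, mul_one]
      split_ifs
      · nlinarith
      · nlinarith
  refine h4.trans ?_
  rw [sum_add_distrib, ← sum_filter, ← mul_sum, ← mul_sum]
  have h5 := sum_inv (k := k) hk n n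
  have h6 : (Irr k n).filter (fun P => P.natDegree ≤ n) = Irr k n := by
    apply filter_true_of_mem
    intro P hP
    exact (mem_Irr.1 hP).2.2
  rw [h6] at h5
  have h7 := sum_inv (k := k) hk n z
  have h8 := mul_le_mul_of_nonneg_left h5 (show (0 : ℝ) ≤ w by linarith)
  have h9 := mul_le_mul_of_nonneg_left h7 (show (0 : ℝ) ≤ w * v by nlinarith)
  exact add_le_add h8 h9

/-- the polynomials which are not typical, with weights -/
theorem nontyp_w (hk : ringChar k ≠ 2) (n R A l s z : ℕ) {w v : ℝ} (hw : 1 ≤ w) (hv : 1 ≤ v) :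
    ∑ D ∈ (Sf k n).filter (fun D => ¬ ty R A l s z D), w ^ (pf D).card ≤
      (Fintype.card k : ℝ) ^ n * (w ^ (R * s) * (2 ^ (R * s) * cb n) +
        Real.exp (2 * w * (1 + Real.log n)) * (1 / 2) ^ (A * l) +
        Real.exp (w * (1 + Real.log n) + w * v * (1 + Real.log z)) * (v ^ s)⁻¹) := by
  set q : ℝ := (Fintype.card k : ℝ) with hq
  have hq1 : 1 ≤ q := by
    rw [hq]; exact_mod_cast (Fintype.card_pos (α := k))
  have hw0 : 0 < w := by linarith
  have hv0 : 0 < v := by linarith
  -- few prime factors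
  have h1 : ∑ D ∈ (Sf k n).filter (fun D => (pf D).card < R * s), w ^ (pf D).card ≤
      w ^ (R * s) * (2 ^ (R * s) * cb n * q ^ n) := by
    have h3 := few_primes (k := k) hk n (R * s)
    calc ∑ D ∈ (Sf k n).filter (fun D => (pf D).card < R * s), w ^ (pf D).card ≤
        ∑ D ∈ (Sf k n).filter (fun D => (pf D).card < R * s), w ^ (R * s) := by
          apply sum_le_sum
          intro D hD
          exact pow_le_pow_right₀ hw (mem_filter.1 hD).2.le
      _ = w ^ (R * s) * (((Sf k n).filter (fun D => (pf D).card < R * s)).card : ℝ) := by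
          rw [sum_const, nsmul_eq_mul, mul_comm]
      _ ≤ _ := mul_le_mul_of_nonneg_left h3 (by positivity)
  -- many prime factors
  have h2 : ∑ D ∈ (Sf k n).filter (fun D => A * l < (pf D).card), w ^ (pf D).card ≤
      q ^ n * (Real.exp (2 * w * (1 + Real.log n)) * (1 / 2) ^ (A * l)) := by
    have h3 := sum_two (k := k) hk n 0 (w := 2 * w) (v := 1) (by linarith) le_rfl
    have h4 : ∀ D ∈ (Sf k n).filter (fun D => A * l < (pf D).card), w ^ (pf D).card ≤
        ((2 * w) ^ (pf D).card * 1 ^ sm 0 D) * (1 / 2) ^ (A * l) := by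
      intro D hD
      have h5 := (mem_filter.1 hD).2.le
      have h6 : w ^ (pf D).card = (2 * w) ^ (pf D).card * (1 / 2) ^ (pf D).card := by
        rw [← mul_pow]
        congr 1
        ring
      rw [one_pow, mul_one, h6]
      apply mul_le_mul_of_nonneg_left _ (by positivity)
      exact pow_le_pow_of_le_one (by norm_num) (by norm_num) h5
    refine (sum_le_sum h4).trans ?_
    rw [← sum_mul, ← mul_assoc]
    apply mul_le_mul_of_nonneg_right _ (by positivity)
    refine (sum_le_sum_of_subset_of_nonneg (filter_subset _ _) fun D _ _ => by positivity).trans ?_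
    have h7 : ∑ D ∈ Sf k n, (2 * w) ^ (pf D).card * 1 ^ sm 0 D ≤
        q ^ n * Real.exp (2 * w * (1 + Real.log n)) := by
      have h8 : ∀ D ∈ Sf k n, (2 * w) ^ (pf D).card * (1 : ℝ) ^ sm 0 D = ∏ P ∈ pf D, (2 * w) := by
        intro D _
        rw [one_pow, mul_one, prod_const]
      rw [sum_congr rfl h8]
      have h9 := sum_mult (k := k) hk n (fun _ => 2 * w) (fun _ => by linarith)
      refine (sum_le_sum_of_subset_of_nonneg (filter_subset _ _) fun D _ _ =>
        prod_nonneg fun P _ => by linarith).trans (h9.trans ?_)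
      apply mul_le_mul_of_nonneg_left _ (by positivity)
      have h10 : ∏ P ∈ Irr k n, (1 + (2 * w - 1) * (q ^ P.natDegree)⁻¹) ≤
          ∏ P ∈ Irr k n, Real.exp (2 * w * (q ^ P.natDegree)⁻¹) := by
        apply Finset.prod_le_prod
        · intro P _
          have h4 : 0 ≤ (2 * w - 1) * (q ^ P.natDegree)⁻¹ := mul_nonneg (by linarith) (by positivity)
          linarith
        · intro P _
          have h11 : (0 : ℝ) < (q ^ P.natDegree)⁻¹ := by positivity
          have := Real.add_one_le_exp (2 * w * (q ^ P.natDegree)⁻¹)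
          nlinarith
      refine h10.trans ?_
      rw [← Real.exp_sum, ← mul_sum]
      apply Real.exp_le_exp.2
      have h5 := sum_inv (k := k) hk n n
      have h6 : (Irr k n).filter (fun P => P.natDegree ≤ n) = Irr k n := by
        apply filter_true_of_mem
        intro P hP
        exact (mem_Irr.1 hP).2.2
      rw [h6] at h5
      exact mul_le_mul_of_nonneg_left h5 (by linarith)
    exact h7
  -- many small prime factors
  have h3 : ∑ D ∈ (Sf k n).filter (fun D => s < sm z D), w ^ (pf D).card ≤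
      q ^ n * (Real.exp (w * (1 + Real.log n) + w * v * (1 + Real.log z)) * (v ^ s)⁻¹) := by
    have h4 := sum_two (k := k) hk n z hw hv
    have h5 : ∀ D ∈ (Sf k n).filter (fun D => s < sm z D), w ^ (pf D).card ≤
        (w ^ (pf D).card * v ^ sm z D) * (v ^ s)⁻¹ := by
      intro D hD
      have h6 := (mem_filter.1 hD).2.le
      have h7 : v ^ s ≤ v ^ sm z D := pow_le_pow_right₀ hv h6
      rw [mul_assoc]
      have h8 : 1 ≤ v ^ sm z D * (v ^ s)⁻¹ := by
        rw [← div_eq_mul_inv, one_le_div (by positivity)]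
        exact h7
      have h9 : 0 < w ^ (pf D).card := by positivity
      nlinarith
    refine (sum_le_sum h5).trans ?_
    rw [← sum_mul, ← mul_assoc]
    apply mul_le_mul_of_nonneg_right _ (by positivity)
    exact (sum_le_sum_of_subset_of_nonneg (filter_subset _ _) fun D _ _ => by positivity).trans h4
  have h4 : (Sf k n).filter (fun D => ¬ ty R A l s z D) ⊆
      ((Sf k n).filter fun D => (pf D).card < R * s) ∪ (((Sf k n).filter fun D => A * l < (pf D).card) ∪
      ((Sf k n).filter fun D => s < sm z D)) := by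
    intro D hD
    rw [mem_filter, ty] at hD
    rw [mem_union, mem_union, mem_filter, mem_filter, mem_filter]
    by_cases e1 : A * l < (pf D).card
    · exact Or.inr (Or.inl ⟨hD.1, e1⟩)
    · by_cases e2 : s < sm z D
      · exact Or.inr (Or.inr ⟨hD.1, e2⟩)
      · left
        refine ⟨hD.1, ?_⟩
        by_contra e3
        exact hD.2 ⟨not_lt.1 e3, not_lt.1 e1, not_lt.1 e2⟩
  have h5 : ∀ S S' : Finset k[X], ∑ D ∈ S ∪ S', w ^ (pf D).card ≤
      ∑ D ∈ S, w ^ (pf D).card + ∑ D ∈ S', w ^ (pf D).card := by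
    intro S S'
    have h6 := sum_union_inter (s₁ := S) (s₂ := S') (f := fun D => w ^ (pf D).card)
    have h7 : 0 ≤ ∑ D ∈ S ∩ S', w ^ (pf D).card := sum_nonneg fun D _ => by positivity
    linarith
  refine (sum_le_sum_of_subset_of_nonneg h4 fun D _ _ => by positivity).trans ?_
  have h6 := h5 ((Sf k n).filter fun D => (pf D).card < R * s)
    (((Sf k n).filter fun D => A * l < (pf D).card) ∪ ((Sf k n).filter fun D => s < sm z D))
  have h7 := h5 ((Sf k n).filter fun D => A * l < (pf D).card) ((Sf k n).filter fun D => s < sm z D)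
  have h8 : q ^ n * (w ^ (R * s) * (2 ^ (R * s) * cb n) +
        Real.exp (2 * w * (1 + Real.log n)) * (1 / 2) ^ (A * l) +
        Real.exp (w * (1 + Real.log n) + w * v * (1 + Real.log z)) * (v ^ s)⁻¹) =
      w ^ (R * s) * (2 ^ (R * s) * cb n * q ^ n) +
      q ^ n * (Real.exp (2 * w * (1 + Real.log n)) * (1 / 2) ^ (A * l)) +
      q ^ n * (Real.exp (w * (1 + Real.log n) + w * v * (1 + Real.log z)) * (v ^ s)⁻¹) := by ring
  rw [h8]
  linarith

end Pool.Agent.Q269.AV
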