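import Pool.Agent.Q269.AV.Nt

/-!
# The moments: the choice of the parameters
-/

set_option autoImplicit false
set_option linter.all false

namespace Pool.Agent.Q269.AV

open Finset Polynomial Filter Topology
open Pool.Agent.H341R2.Sharp
open Pool.Agent.Y164.SZ (et nb dQ)
open Pool.Agent.Y164.PS (Sf pf sm cb cb_pos tend_log2 asy2)
open Pool.Agent.Y164.HG (ty asy1 asy3 asy4 tend_div)
open Pool.Agent.Y261.SZ (et_le et_nonneg)
open scoped Classical

variable {k : Type} [Field k] [Fintype k] [DecidableEq k]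
variable {τ : Type} [Fintype τ] {Q : τ → k[X]}

theorem log_le_l {n l : ℕ} (hn : 1 ≤ n) (h : n < 2 ^ (l + 1)) : Real.log n ≤ l + 1 := by
  have hn0 : (0 : ℝ) < n := by exact_mod_cast hn
  have h8 : Real.log n ≤ Real.log (2 ^ (l + 1)) := by
    apply Real.log_le_log hn0
    exact_mod_cast h.le
  rw [Real.log_pow] at h8
  have h9 : Real.log 2 ≤ 1 := by
    have := Real.log_two_lt_d9
    linarith
  calc Real.log n ≤ ((l + 1 : ℕ) : ℝ) * Real.log 2 := h8
    _ ≤ ((l + 1 : ℕ) : ℝ) * 1 := mul_le_mul_of_nonneg_left h9 (by positivity)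
    _ = _ := by push_cast; ring

theorem exp_small (C a : ℝ) (ha : 0 < a) (δ : ℝ) (hδ : 0 < δ) :
    ∀ᶠ l : ℕ in atTop, Real.exp (C - a * l) ≤ δ := by
  have h1 : Tendsto (fun l : ℕ => C - a * (l : ℝ)) atTop atBot := by
    apply Filter.tendsto_atBot_add_const_left atTop C (f := fun l : ℕ => -(a * (l : ℝ)))
    apply tendsto_neg_atTop_atBot.comp
    exact tendsto_natCast_atTop_atTop.const_mul_atTop ha
  exact (Real.tendsto_exp_atBot.comp h1).eventually_le_const hδ

/-- the choice of the parameters -/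
theorem params_w (hk : ringChar k ≠ 2) (Q : τ → k[X]) (ℓ : ℕ) {w : ℕ} (hw : 1 ≤ w) (w0 : ℕ)
    (hw0 : 1 ≤ w0) (R : ℕ) (C : ℝ) (hC : 0 ≤ C) (δ : ℝ) (hδ : 0 < δ) :
    ∃ A : ℕ, ∀ᶠ n : ℕ in atTop, ∃ l s z : ℕ, 1 ≤ s ∧ 2 ≤ z ∧
      C * (1 / 2 : ℝ) ^ s ≤ 1 ∧
      (∀ m ≤ A * l, et ℓ Q n z * (C * (w : ℝ) ^ m) ≤ 1) ∧
      ∑ D ∈ (Sf k n).filter (fun D => ¬ ty R A l s z D), (w0 : ℝ) ^ (pf D).card ≤
        δ * (Fintype.card k : ℝ) ^ n := by
  have hw0r : (1 : ℝ) ≤ w0 := by exact_mod_cast hw0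
  obtain ⟨A, hAd⟩ : ∃ A : ℕ, A = 2 * (2 * w0 + 1) := ⟨_, rfl⟩
  obtain ⟨R', hR'⟩ : ∃ R', R' = (w0 + 1) * R := ⟨_, rfl⟩
  obtain ⟨c, hcd⟩ : ∃ c, c = 2 * R' + 2 := ⟨_, rfl⟩
  have hc1 : 1 ≤ c := by omega
  have hc0 : (0 : ℝ) < c := by exact_mod_cast hc1
  obtain ⟨v, hv⟩ : ∃ v : ℝ, v = Real.exp (c * (w0 + 1)) := ⟨_, rfl⟩
  have hv1 : 1 ≤ v := by
    rw [hv]
    apply Real.one_le_exp
    positivity
  have hv0 : 0 < v := by linarith
  refine ⟨A, ?_⟩
  have h1 := tend_log2.eventually (asy1 c hc1 C 1 one_pos)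
  have h2 := tend_log2.eventually (asy2 ((2 * (5 * (ℓ * (2 + dQ Q)) + 2 + 2 * (2 +
    Fintype.card τ))) * C) 1 one_pos)
  have h3 := tend_log2.eventually (asy3 c hc1 (w * A + 3) (by omega)
    (1 / (2 * (w0 * v))) (by positivity))
  have h4 := tend_log2.eventually (asy1 c hc1 1 (δ / 3) (by positivity))
  have h5 := tend_log2.eventually_ge_atTop c
  have h6 := tend_log2.eventually (exp_small (4 * w0) 1 one_pos (δ / 3) (by positivity))
  have h7 := tend_log2.eventually (exp_small (2 * w0 + c * (w0 + 1) + 1 / 2) (1 / 2) (by norm_num)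
    (δ / 3) (by positivity))
  filter_upwards [h1, h2, h3, h4, h5, h6, h7, eventually_ge_atTop 1] with n e1 e2 e3 e4 e5 e6 e7 e8
  obtain ⟨l, hl⟩ : ∃ l, l = Nat.log 2 n := ⟨_, rfl⟩
  rw [← hl] at e1 e2 e3 e4 e5 e6 e7
  have hl1 : 2 ^ l ≤ n := by rw [hl]; exact Nat.pow_log_le_self 2 (by omega)
  have hl2 : n < 2 ^ (l + 1) := by rw [hl]; exact Nat.lt_pow_succ_log_self (by norm_num) n
  have hs1 : 1 ≤ l / c := (Nat.one_le_div_iff (by omega)).2 e5
  have hl0' : 1 ≤ l := hc1.trans e5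
  refine ⟨l, l / c, (w * A + 3) * l, hs1, ?_, e1, ?_, ?_⟩
  · have : 3 * 1 ≤ (w * A + 3) * l := Nat.mul_le_mul (by omega) hl0'
    omega
  · intro m hm
    have h6 := et_le (Q := Q) (ℓ := ℓ) (A := A) hw hl2
    have hw1 : (1 : ℝ) ≤ w := by exact_mod_cast hw
    have h7 : (w : ℝ) ^ m ≤ (w : ℝ) ^ (A * l) := pow_le_pow_right₀ hw1 hm
    have h8 := et_nonneg (Q := Q) ℓ n ((w * A + 3) * l)
    calc et ℓ Q n ((w * A + 3) * l) * (C * (w : ℝ) ^ m) ≤
        et ℓ Q n ((w * A + 3) * l) * (C * (w : ℝ) ^ (A * l)) := by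
          apply mul_le_mul_of_nonneg_left _ h8
          exact mul_le_mul_of_nonneg_left h7 hC
      _ = (et ℓ Q n ((w * A + 3) * l) * (w : ℝ) ^ (A * l)) * C := by ring
      _ ≤ ((2 * (5 * (ℓ * (2 + dQ Q)) + 2 + 2 * (2 + Fintype.card τ))) * (1 / 2) ^ l) *
          C := mul_le_mul_of_nonneg_right h6 hC
      _ = ((2 * (5 * (ℓ * (2 + dQ Q)) + 2 + 2 * (2 + Fintype.card τ))) * C) * (1 / 2) ^ l := by ring
      _ ≤ 1 := e2
  · refine (nontyp_w (k := k) hk n R A l (l / c) ((w * A + 3) * l) hw0r hv1).trans ?_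
    rw [mul_comm δ]
    apply mul_le_mul_of_nonneg_left _ (by positivity)
    have hlogn := log_le_l e8 hl2
    have hl0 : (1 : ℝ) ≤ l := by exact_mod_cast hl0'
    -- few
    have f1 : (w0 : ℝ) ^ (R * (l / c)) * (2 ^ (R * (l / c)) * cb n) ≤ δ / 3 := by
      have g1 := asy4 (R := R') (n := n) (l := l) (s := l / c) hl1 (by
        rw [← hcd]
        exact Nat.mul_div_le l c)
      have g2 : (w0 : ℝ) ≤ 2 ^ w0 := by exact_mod_cast (Nat.lt_two_pow_self (n := w0)).le
      have g3 : (w0 : ℝ) ^ (R * (l / c)) ≤ (2 ^ w0) ^ (R * (l / c)) :=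
        pow_le_pow_left₀ (by linarith) g2 _
      have g4 : ((2 : ℝ) ^ w0) ^ (R * (l / c)) * 2 ^ (R * (l / c)) = 2 ^ (R' * (l / c)) := by
        rw [← pow_mul, ← pow_add, hR']
        congr 1
        ring
      have g5 := (cb_pos n).le
      calc (w0 : ℝ) ^ (R * (l / c)) * (2 ^ (R * (l / c)) * cb n) ≤
          (2 ^ w0) ^ (R * (l / c)) * (2 ^ (R * (l / c)) * cb n) :=
            mul_le_mul_of_nonneg_right g3 (by positivity)
        _ = 2 ^ (R' * (l / c)) * cb n := by rw [← g4]; ring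
        _ ≤ (1 / 2) ^ (l / c) := g1
        _ = 1 * (1 / 2) ^ (l / c) := (one_mul _).symm
        _ ≤ δ / 3 := e4
    -- many
    have f2 : Real.exp (2 * w0 * (1 + Real.log n)) * (1 / 2) ^ (A * l) ≤ δ / 3 := by
      refine le_trans ?_ e6
      have g1 : (1 / 2 : ℝ) ≤ Real.exp (-(1 / 2)) := by
        have := Real.add_one_le_exp (-(1 / 2 : ℝ))
        linarith
      have g2 : (1 / 2 : ℝ) ^ (A * l) ≤ Real.exp (-((2 * w0 + 1) * l)) := by
        calc (1 / 2 : ℝ) ^ (A * l) ≤ Real.exp (-(1 / 2)) ^ (A * l) :=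
              pow_le_pow_left₀ (by norm_num) g1 _
          _ = Real.exp (-((2 * w0 + 1) * l)) := by
              rw [← Real.exp_nat_mul, hAd]
              congr 1
              push_cast
              ring
      have g3 : Real.exp (2 * w0 * (1 + Real.log n)) ≤ Real.exp (2 * w0 * (l + 2)) := by
        apply Real.exp_le_exp.2
        apply mul_le_mul_of_nonneg_left _ (by positivity)
        linarith
      calc Real.exp (2 * w0 * (1 + Real.log n)) * (1 / 2) ^ (A * l) ≤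
          Real.exp (2 * w0 * (l + 2)) * Real.exp (-((2 * w0 + 1) * l)) :=
            mul_le_mul g3 g2 (by positivity) (by positivity)
        _ = Real.exp (4 * w0 - 1 * l) := by
            rw [← Real.exp_add]
            congr 1
            ring
    -- many small
    have f3 : Real.exp (w0 * (1 + Real.log n) + w0 * v * (1 + Real.log ((w * A + 3) * l : ℕ))) *
        (v ^ (l / c))⁻¹ ≤ δ / 3 := by
      refine le_trans ?_ e7
      have g1 : w0 * v * (1 + Real.log ((w * A + 3) * l : ℕ)) ≤ (l + 1) / 2 := by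
        have g2 : (((l / c : ℕ) : ℝ)) ≤ l := by exact_mod_cast Nat.div_le_self l c
        have g3 : (0 : ℝ) < ((l / c : ℕ) : ℝ) + 1 := by positivity
        rw [div_le_iff₀ g3, div_mul_eq_mul_div, one_mul, le_div_iff₀ (by positivity)] at e3
        linarith
      have g4 : (v ^ (l / c))⁻¹ ≤ Real.exp (c * (w0 + 1) - (w0 + 1) * l) := by
        rw [hv, ← Real.exp_nat_mul, ← Real.exp_neg]
        apply Real.exp_le_exp.2
        have g5 : (l : ℝ) ≤ c * ((l / c : ℕ) + 1) := by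
          have : l ≤ c * (l / c + 1) := (Nat.lt_mul_div_succ l (by omega)).le
          exact_mod_cast this
        have g6 : (0 : ℝ) ≤ w0 + 1 := by positivity
        have g7 := mul_le_mul_of_nonneg_right g5 g6
        nlinarith
      have g5 : Real.exp (w0 * (1 + Real.log n) + w0 * v * (1 + Real.log ((w * A + 3) * l : ℕ))) ≤
          Real.exp (w0 * (l + 2) + (l + 1) / 2) := by
        apply Real.exp_le_exp.2
        have g6 := mul_le_mul_of_nonneg_left hlogn (show (0 : ℝ) ≤ w0 by linarith)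
        linarith
      calc _ ≤ Real.exp (w0 * (l + 2) + (l + 1) / 2) * Real.exp (c * (w0 + 1) - (w0 + 1) * l) :=
            mul_le_mul g5 g4 (by positivity) (by positivity)
        _ = _ := by
            rw [← Real.exp_add]
            congr 1
            ring
    linarith

end Pool.Agent.Q269.AV
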